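import Mathlib
import Pool.Agent.Helper40.CX.H83VN.Ctc
import Pool.Agent.Helper40.CX.H51VK.Nod
import Pool.Agent.Helper40.CX.H51EW.Odd2
import Pool.Agent.Helper40.CX.H51VN.Fun
import Pool.Agent.Helper40.CX.H83EW.Red
import Pool.Agent.Helper40.CX.Good2

namespace CX

/-!
# Project CHI: coordinates on the projective line, functions with a restricted orthogonality

The surface is `y ^ 2 = x ^ 3 - 3 a (T) x - 2 b (T)` over the points `e0 + T e1` of the projective
line. `OddC D n g Φ`: the function `Φ` on the `n`-th power of the surface is odd, alternating, zero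
if a component is on a singular fibre or over `e1`, and orthogonal to the principal divisors on the
curves along which the sum of the coordinates `T` is the constant `g`.
-/

set_option linter.unusedSectionVars false

namespace Pool.Agent.Helper83.CHA

open VC VF Function
open Pool.Agent.Helper83.VN Pool.Agent.Helper51.EW Pool.Agent.Helper51.VN

universe u

/-- Coordinates on the projective line adapted to the surface. -/
structure Cor {k : Type u} [Field k] (W : Wei k) where
  e0 : Fin 2 → k
  e1 : Fin 2 → k
  det : e0 0 * e1 1 - e0 1 * e1 0 ≠ 0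
  /-- `-3 a` is the coefficient of `x` -/
  al : Polynomial k
  /-- `-2 b` is the constant coefficient -/
  be : Polynomial k
  hA : ∀ (K : Type u) [Field K] [Algebra k K] (T : K),
    MvPolynomial.aeval (fun i => algebraMap k K (e0 i) + T * algebraMap k K (e1 i)) W.A =
      -3 * Polynomial.aeval T al
  hB : ∀ (K : Type u) [Field K] [Algebra k K] (T : K),
    MvPolynomial.aeval (fun i => algebraMap k K (e0 i) + T * algebraMap k K (e1 i)) W.B =
      -2 * Polynomial.aeval T be
  hD : be ^ 2 - al ^ 3 ≠ 0
  dal : al.natDegree ≤ 4 * W.N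
  dbe : be.natDegree ≤ 6 * W.N

section defs

variable {k : Type u} [Field k] {W : Wei k} (D : Cor W) {K : Type u} [Field K] [Algebra k K]

/-- The point `e0 + T e1` of the projective line. -/
def Cor.base (T : K) : Fin 2 → K := fun i => algebraMap k K (D.e0 i) + T * algebraMap k K (D.e1 i)

/-- `a (T)` -/
noncomputable def Cor.a (T : K) : K := Polynomial.aeval T D.al

/-- `b (T)` -/
noncomputable def Cor.b (T : K) : K := Polynomial.aeval T D.be

/-- `d (T) = b (T) ^ 2 - a (T) ^ 3` -/
noncomputable def Cor.d (T : K) : K := D.b T ^ 2 - D.a T ^ 3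

/-- The point `(x, y)` of the fibre over `T`. -/
noncomputable def Cor.pt (T x y : K) : WPt W K := apt W (D.base T) x y

/-- The restriction of a function on the power of the surface to the product of the fibres over
the points `T i`. -/
noncomputable def psT {n : ℕ} (Ψ : (Fin n → WPt W k) → ℂ) (T : Fin n → k) :
    (Fin n → k × k) → ℂ := fun p => Ψ (fun i => D.pt (T i) (p i).1 (p i).2)

end defs

section kfun

variable {k : Type u} [Field k] [IsAlgClosed k] [Good k] {W : Wei k} (D : Cor W)
  {K : Type u} [Field K] [Algebra k K] {n : ℕ}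

/-- The point of the power of the surface with coordinates in the function field `K`: the
coordinates `z i` and `ω ^ (e i) * v i` on the covering of the fibre over `t i`. -/
noncomputable def kpt (ω : k) (t z v : Fin n → K) (e : Fin n → ZMod 3) : Fin n → WPt W K :=
  fun i => D.pt (t i) (px (D.a (t i)) (algebraMap k K (ω ^ (e i).val) * v i))
    (py (D.d (t i)) (z i) (algebraMap k K (ω ^ (e i).val) * v i))

/-- The function on the places of `K` given by the values of `Ψ` at the points `kpt`. -/
noncomputable def KF (ω : k) (θ : ℂ) (Ψ : (Fin n → WPt W k) → ℂ) (hK : IsFunctionField k K)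
    (t z v : Fin n → K) (w : Place k K) : ℂ :=
  ∑ e : Fin n → ZMod 3, θ ^ (-∑ i, e i).val *
    Ψ ((W.surface.pow n).eval hK (kpt D ω t z v e) w)

end kfun

/-- The sum condition: the sum of the coordinates is the constant `g`. -/
def Prc {k : Type u} [Field k] {n : ℕ} (g : k) {K : Type u} [Field K] [Algebra k K]
    (t : Fin n → K) : Prop := ∑ i, t i = algebraMap k K g

/-- Odd alternating functions on the power of the surface, which are zero if a component is on a
singular fibre or over `e1`, and orthogonal to the principal divisors on the curves along which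
the sum of the coordinates is `g`. -/
structure OddC {k : Type u} [Field k] [IsAlgClosed k] [Good k] {W : Wei k} (D : Cor W) (n : ℕ)
    (g : k) (Φ : (W.surface.pow n).Pt → ℂ) : Prop where
  gen : ∀ (K : Type u) [Field K] [Algebra k K] (hK : IsFunctionField k K) (t x y : Fin n → K),
    (∀ i, OnE (D.a (t i)) (D.b (t i)) (x i) (y i)) → Prc g t → ∀ (f : K) (hf : f ≠ 0),
      ∑ w ∈ (finite_support_ord hK hf).toFinset, (ord w.ring f : ℂ) *
        Φ ((W.surface.pow n).eval hK (fun i => D.pt (t i) (x i) (y i)) w) = 0
  odd : ∀ (p : (W.surface.pow n).Pt) (i : Fin n), Φ (update p i (neg (p i))) = -Φ p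
  alt : ∀ i j : Fin n, i ≠ j → ∀ p : (W.surface.pow n).Pt,
    Φ (fun l => p (Equiv.swap i j l)) = -Φ p
  sing : ∀ (p : (W.surface.pow n).Pt) (i : Fin n) (c : Coord W k), p i = WPt.mk c →
    4 * MvPolynomial.aeval c.u W.A ^ 3 + 27 * MvPolynomial.aeval c.u W.B ^ 2 = 0 → Φ p = 0
  inf : ∀ (p : (W.surface.pow n).Pt) (i : Fin n) (c : Coord W k), p i = WPt.mk c →
    c.u 0 * D.e1 1 - c.u 1 * D.e1 0 = 0 → Φ p = 0

end Pool.Agent.Helper83.CHA

end CX
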