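import Mathlib
import Pool.Agent.Helper98.CHA.Cor
import Pool.Agent.Helper40.CX.Good2

namespace CX

/-!
# Block VN-PNT: points of the surface, values at places

Templates: `Helper51/VK/Defs.lean` (`bp_ne`, `cub_eqn`, `neg_ptt`) and `Helper51/VK/Vals.lean`
(`null_del`, `null_two`, `null_or`, `eval_ptt`, `null_of_pole`, `null_of_pole_base`), the same proofs
with `+ 2 β` replaced by `- 2 b`. `odd_sing` is `Helper51.VK.odd_nodal` (for general `W`) with
`Odd.one`. `onE_of_onX`: `y ^ 2 = ((z + d / (4 z)) ^ 2 - d) / v ^ 6` and `z + d / (4 z) = v ^ 6 - b`.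
-/

set_option linter.unusedSectionVars false

namespace Pool.Agent.Helper83.CHA

open VC VF Function
open Pool.Agent.Helper83.VN Pool.Agent.Helper51.EW Pool.Agent.Helper51.VN

universe u

section basic

variable {k : Type u} [Field k] {W : Wei k} (D : Cor W) {K : Type u} [Field K] [Algebra k K]

lemma base_ne (T : K) : D.base T ≠ 0 := by
  intro h
  have h0 : algebraMap k K (D.e0 0) + T * algebraMap k K (D.e1 0) = 0 := congrFun h 0
  have h1 : algebraMap k K (D.e0 1) + T * algebraMap k K (D.e1 1) = 0 := congrFun h 1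
  apply D.det
  apply (algebraMap k K).injective
  rw [map_sub, map_mul, map_mul, map_zero]
  linear_combination algebraMap k K (D.e1 1) * h0 - algebraMap k K (D.e1 0) * h1

lemma base_eqn {T x y : K} (h : OnE (D.a T) (D.b T) x y) :
    y ^ 2 = x ^ 3 + MvPolynomial.aeval (D.base T) W.A * x + MvPolynomial.aeval (D.base T) W.B := by
  have e1 : MvPolynomial.aeval (D.base T) W.A = -3 * D.a T := D.hA K T
  have e2 : MvPolynomial.aeval (D.base T) W.B = -2 * D.b T := D.hB K T
  unfold OnE at h
  rw [h, e1, e2]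
  ring

lemma neg_pt {T x y : K} (h : OnE (D.a T) (D.b T) x y) : neg (D.pt T x y) = D.pt T x (-y) :=
  neg_apt (base_ne D T) (base_eqn D h)

/-- Points of the covering have points of the curve as images. -/
lemma onE_of_onX {F : Type*} [Field F] [Good F] {a b d z v : F} (hd : d = b ^ 2 - a ^ 3)
    (h : OnX b d z v) : OnE a b (px a v) (py d z v) := by
  obtain ⟨hz, hv, he⟩ := h
  have h1 : (z - d / (4 * z)) ^ 2 = (v ^ 6 - b) ^ 2 - d := by
    have h2 : v ^ 6 - b = z + d / (4 * z) := by rw [he]; ring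
    rw [h2]
    field_simp
    ring
  unfold OnE px py
  rw [div_pow, h1, hd]
  field_simp
  ring

/-- Multiplication of `v` by a cube root of unity (any sixth root of unity). -/
lemma onX_mul {F : Type*} [Field F] {b d z v g : F} (hg : g ^ 6 = 1) (h : OnX b d z v) :
    OnX b d z (g * v) := by
  obtain ⟨hz, hv, he⟩ := h
  have hg0 : g ≠ 0 := by
    rintro rfl
    rw [zero_pow (by norm_num)] at hg
    exact zero_ne_one hg
  exact ⟨hz, mul_ne_zero hg0 hv, by rw [mul_pow, hg, one_mul, he]⟩

end basic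

variable {k : Type u} [Field k] [IsAlgClosed k] [Good k] {W : Wei k} (D : Cor W)
  {K : Type u} [Field K] [Algebra k K] {n : ℕ} {Ψ : (W.surface.pow n).Pt → ℂ}

variable {D} in
/-- An odd function vanishes at a point with a component fixed by the involution. -/
lemma OddC.zero_of_neg {g : k} (h : OddC D n g Ψ) {p : (W.surface.pow n).Pt} {i : Fin n}
    (hi : neg (p i) = p i) : Ψ p = 0 := by
  have h1 := h.odd p i
  rw [hi, update_eq_self] at h1
  have h2 : (2 : ℂ) * Ψ p = 0 := by linear_combination h1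
  exact (mul_eq_zero.mp h2).resolve_left two_ne_zero

variable {D} in
/-- Such a function vanishes if a component is a point of a singular fibre. -/
lemma odd_sing {g : k} (h : OddC D n g Ψ) {p : (W.surface.pow n).Pt} {i : Fin n} {c : Coord W k}
    (hi : p i = WPt.mk c)
    (hc : 4 * MvPolynomial.aeval c.u W.A ^ 3 + 27 * MvPolynomial.aeval c.u W.B ^ 2 = 0) :
    Ψ p = 0 := h.sing p i c hi hc

/-- A point over `t` with `d (t) = 0` is on a singular fibre, or fixed by the involution. -/
private lemma pt_sing_h26 {t : k} (ht : D.d t = 0) (x y : k) : neg (D.pt t x y) = D.pt t x y ∨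
    ∃ c : Coord W k, D.pt t x y = WPt.mk c ∧
      4 * MvPolynomial.aeval c.u W.A ^ 3 + 27 * MvPolynomial.aeval c.u W.B ^ 2 = 0 := by
  by_cases hc : D.base t ≠ 0 ∧ y ^ 2 = x ^ 3 + MvPolynomial.aeval (D.base t) W.A * x +
      MvPolynomial.aeval (D.base t) W.B
  · right
    refine ⟨affC (D.base t) x y hc.1 hc.2, apt_eq hc.1 hc.2, ?_⟩
    change 4 * MvPolynomial.aeval (D.base t) W.A ^ 3 +
      27 * MvPolynomial.aeval (D.base t) W.B ^ 2 = 0
    have e1 : MvPolynomial.aeval (D.base t) W.A = -3 * D.a t := D.hA k t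
    have e2 : MvPolynomial.aeval (D.base t) W.B = -2 * D.b t := D.hB k t
    rw [e1, e2]
    unfold Cor.d at ht
    linear_combination 108 * ht
  · left
    have e : D.pt t x y = zeroPt (fun _ => 1) (fun h => one_ne_zero (congrFun h 0)) :=
      dif_neg hc
    rw [e]
    exact neg_zeroPt _ _

/-- Classification of the points of the surface: fixed by the involution, or on a singular fibre,
or over `e1`, or general. -/
theorem pt_or (p : WPt W k) : neg p = p ∨
    (∃ c : Coord W k, p = WPt.mk c ∧
      4 * MvPolynomial.aeval c.u W.A ^ 3 + 27 * MvPolynomial.aeval c.u W.B ^ 2 = 0) ∨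
    (∃ c : Coord W k, p = WPt.mk c ∧ c.u 0 * D.e1 1 - c.u 1 * D.e1 0 = 0) ∨
    ∃ t x y : k, D.d t ≠ 0 ∧ y ≠ 0 ∧ OnE (D.a t) (D.b t) x y ∧ p = D.pt t x y := by
  rcases aff_or_zero p with ⟨u, hu, rfl⟩ | ⟨u, x, y, hu, he, rfl⟩
  · exact Or.inl (neg_zeroPt u hu)
  have hdet := D.det
  set dt := D.e0 0 * D.e1 1 - D.e0 1 * D.e1 0 with hdt
  set s : k := (u 0 * D.e1 1 - u 1 * D.e1 0) / dt with hs
  set t : k := (u 1 * D.e0 0 - u 0 * D.e0 1) / dt with ht
  have hst : ∀ i, u i = s * D.e0 i + t * D.e1 i := by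
    intro i
    fin_cases i
    · change u 0 = s * D.e0 0 + t * D.e1 0
      rw [hs, ht]
      field_simp
      rw [hdt]
      ring
    · change u 1 = s * D.e0 1 + t * D.e1 1
      rw [hs, ht]
      field_simp
      rw [hdt]
      ring
  by_cases hs0 : s = 0
  · right
    right
    left
    have hu' : u = fun i => t * D.e1 i := by
      funext i
      rw [hst i, hs0, zero_mul, zero_add]
    refine ⟨affC u x y hu he, rfl, ?_⟩
    change u 0 * D.e1 1 - u 1 * D.e1 0 = 0
    rw [hu']
    ring
  set T : k := t / s with hT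
  have hsT : s * T = t := by rw [hT]; field_simp
  have hu' : D.base T = fun i => s⁻¹ * u i := by
    funext i
    change D.e0 i + T * D.e1 i = _
    rw [hst i, ← hsT]
    field_simp
  have hs' := inv_ne_zero hs0
  set x' : k := s⁻¹ ^ (2 * W.N) * x with hx'
  set y' : k := s⁻¹ ^ (3 * W.N) * y with hy'
  have heq : y' ^ 2 = x' ^ 3 + MvPolynomial.aeval (D.base T) W.A * x' +
      MvPolynomial.aeval (D.base T) W.B := by
    rw [hu', aeval_smul W.hA, aeval_smul W.hB, hx', hy']
    linear_combination s⁻¹ ^ (6 * W.N) * he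
  have hp : aff u x y hu he = D.pt T x' y' := by
    unfold Cor.pt
    rw [apt_eq (base_ne D T) heq]
    refine mk_eq_iff.mpr ⟨s⁻¹, 1, hs', one_ne_zero, fun i => congrFun hu' i, fun i => ?_⟩
    fin_cases i
    · change x' = s⁻¹ ^ (2 * W.N) * 1 * x
      rw [mul_one]
    · change y' = s⁻¹ ^ (3 * W.N) * 1 * y
      rw [mul_one]
    · change (1 : k) = s⁻¹ ^ 0 * 1 * 1
      simp
  rw [hp]
  by_cases hd : D.d T = 0
  · rcases pt_sing_h26 D hd x' y' with h | h
    · exact Or.inl h
    · exact Or.inr (Or.inl h)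
  have hE : OnE (D.a T) (D.b T) x' y' := by
    have e1 : MvPolynomial.aeval (D.base T) W.A = -3 * D.a T := D.hA k T
    have e2 : MvPolynomial.aeval (D.base T) W.B = -2 * D.b T := D.hB k T
    unfold OnE
    rw [heq, e1, e2]
    ring
  by_cases hy : y' = 0
  · left
    rw [neg_pt D hE, hy, neg_zero]
  · right
    right
    right
    exact ⟨T, x', y', hd, hy, hE, rfl⟩

/-- A point over `t` with `d (t) = 0` is on a singular fibre, or fixed by the involution. -/
lemma pt_sing {t : k} (ht : D.d t = 0) (x y : k) : neg (D.pt t x y) = D.pt t x y ∨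
    ∃ c : Coord W k, D.pt t x y = WPt.mk c ∧
      4 * MvPolynomial.aeval c.u W.A ^ 3 + 27 * MvPolynomial.aeval c.u W.B ^ 2 = 0 :=
  pt_sing_h26 D ht x y

private lemma isRes_aeval_h26 {v : Place k K} {T : K} {t : k} (hT : IsRes v T t)
    (p : Polynomial k) : IsRes v (Polynomial.aeval T p) (Polynomial.aeval t p) := by
  rw [Polynomial.coe_aeval_eq_eval]
  exact hT.poly

lemma isRes_a {v : Place k K} {T : K} {t : k} (hT : IsRes v T t) : IsRes v (D.a T) (D.a t) :=
  isRes_aeval_h26 hT D.al

lemma isRes_b {v : Place k K} {T : K} {t : k} (hT : IsRes v T t) : IsRes v (D.b T) (D.b t) :=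
  isRes_aeval_h26 hT D.be

lemma isRes_d {v : Place k K} {T : K} {t : k} (hT : IsRes v T t) : IsRes v (D.d T) (D.d t) :=
  ((isRes_b D hT).pow 2).sub ((isRes_a D hT).pow 3)

private lemma isRes_base_h26 {v : Place k K} {T : K} {t : k} (hT : IsRes v T t) (i : Fin 2) :
    IsRes v (D.base T i) (D.base t i) :=
  (isRes_const (D.e0 i)).add (hT.mul (isRes_const (D.e1 i)))

/-- Regular values. -/
theorem eval_pt (hK : IsFunctionField k K) (v : Place k K) {T x y : K}
    (he : OnE (D.a T) (D.b T) x y) {t c d : k} (hT : IsRes v T t) (hx : IsRes v x c)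
    (hy : IsRes v y d) : W.surface.eval hK (D.pt T x y) v = D.pt t c d :=
  eval_apt hK v (base_eqn D he) (base_ne D t) (fun i => isRes_base_h26 D hT i) hx hy

private lemma inv_nonunits_h26 {v : Place k K} {x : K} (hx : x ∉ v.ring) :
    x⁻¹ ∈ v.ring.nonunits := by
  rw [ValuationSubring.mem_nonunits_iff_or, inv_inv]
  exact Or.inr hx

private lemma ne_zero_h26 {v : Place k K} {x : K} (hx : x ∉ v.ring) : x ≠ 0 := by
  rintro rfl
  exact hx v.ring.zero_mem

/-- If `x` has a pole and `T` is regular the value is a point of the zero section. -/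
theorem eval_pole (hK : IsFunctionField k K) (v : Place k K) {T x y : K}
    (he : OnE (D.a T) (D.b T) x y) {t : k} (hT : IsRes v T t) (hx : x ∉ v.ring) :
    neg (W.surface.eval hK (D.pt T x y) v) = W.surface.eval hK (D.pt T x y) v := by
  have hx0 : x ≠ 0 := ne_zero_h26 hx
  have hi : IsRes v x⁻¹ 0 := isRes_zero_iff.mpr (inv_nonunits_h26 hx)
  have h3 : IsRes v (3 : K) (3 : k) := by
    have := isRes_const (v := v) (3 : k)
    rwa [map_ofNat] at this
  have h2' : IsRes v (2 : K) (2 : k) := by
    have := isRes_const (v := v) (2 : k)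
    rwa [map_ofNat] at this
  have h1 : IsRes v (y ^ 2 / x ^ 3) 1 := by
    have e : y ^ 2 / x ^ 3 = 1 - 3 * D.a T * x⁻¹ ^ 2 - 2 * D.b T * x⁻¹ ^ 3 := by
      unfold OnE at he
      rw [he]
      field_simp
    rw [e]
    have := (isRes_one.sub ((h3.mul (isRes_a D hT)).mul (hi.pow 2))).sub
      ((h2'.mul (isRes_b D hT)).mul (hi.pow 3))
    simpa using this
  have hy0 : y ≠ 0 := by
    rintro rfl
    have h2 := h1.ne_zero one_ne_zero
    simp at h2
  have h2 : IsRes v (x ^ 3 / y ^ 2) 1 := by
    have := h1.inv hK one_ne_zero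
    rwa [inv_div, inv_one] at this
  have hxy : IsRes v (x / y) 0 := by
    obtain ⟨e, he1, he2⟩ := exists_res_of_pow hK two_ne_zero (x := x / y) (v := v) (c := 0) (by
      have := h2.mul hi
      rw [mul_zero] at this
      convert this using 1
      field_simp)
    rw [pow_eq_zero_iff two_ne_zero] at he2
    rwa [he2] at he1
  have hy1 : IsRes v (1 / y) 0 := by
    obtain ⟨e, he1, he2⟩ := exists_res_of_pow hK two_ne_zero (x := 1 / y) (v := v) (c := 0) (by
      have := h2.mul (hi.pow 3)
      rw [zero_pow (by norm_num), mul_zero] at this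
      convert this using 1
      field_simp)
    rw [pow_eq_zero_iff two_ne_zero] at he2
    rwa [he2] at he1
  have hval : W.surface.eval hK (D.pt T x y) v = zeroPt (D.base t) (base_ne D t) := by
    have e1 : D.pt T x y = WPt.mk (affC (D.base T) x y (base_ne D T) (base_eqn D he)) :=
      apt_eq (base_ne D T) (base_eqn D he)
    rw [e1, ← same_scale _ 1 y⁻¹ one_ne_zero (inv_ne_zero hy0)]
    refine eval_eq hK v _ (zeroC (D.base t) (base_ne D t)) (fun i => ?_) (fun i => ?_)
    · change IsRes v (1 * D.base T i) (D.base t i)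
      rw [one_mul]
      exact isRes_base_h26 D hT i
    · fin_cases i
      · change IsRes v (1 ^ (2 * W.N) * y⁻¹ * x) 0
        have e2 : (1 : K) ^ (2 * W.N) * y⁻¹ * x = x / y := by
          rw [one_pow]; field_simp
        rw [e2]
        exact hxy
      · change IsRes v (1 ^ (3 * W.N) * y⁻¹ * y) 1
        have e2 : (1 : K) ^ (3 * W.N) * y⁻¹ * y = 1 := by
          rw [one_pow]; field_simp
        rw [e2]
        exact isRes_one
      · change IsRes v (1 ^ 0 * y⁻¹ * 1) 0
        have e2 : (1 : K) ^ 0 * y⁻¹ * 1 = 1 / y := by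
          rw [one_pow]; field_simp
        rw [e2]
        exact hy1
  rw [hval]
  exact neg_zeroPt _ _

/-- If `T` has a pole the value lies over `e1`. -/
theorem eval_pole_base (hK : IsFunctionField k K) (v : Place k K) {T x y : K}
    (he : OnE (D.a T) (D.b T) x y) (hT : T ∉ v.ring) :
    ∃ c : Coord W k, W.surface.eval hK (D.pt T x y) v = WPt.mk c ∧
      c.u 0 * D.e1 1 - c.u 1 * D.e1 0 = 0 := by
  have hT0 : T ≠ 0 := ne_zero_h26 hT
  have hi : IsRes v T⁻¹ 0 := isRes_zero_iff.mpr (inv_nonunits_h26 hT)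
  have he1 : D.e1 ≠ 0 := by
    intro h0
    apply D.det
    rw [h0]
    simp
  obtain ⟨b, hb1, hb2⟩ := eval_base hK v
    (scale (affC (D.base T) x y (base_ne D T) (base_eqn D he)) T⁻¹ 1 (inv_ne_zero hT0) one_ne_zero)
    he1 (by
      intro i
      change IsRes v (T⁻¹ * (algebraMap k K (D.e0 i) + T * algebraMap k K (D.e1 i))) (D.e1 i)
      have e : T⁻¹ * (algebraMap k K (D.e0 i) + T * algebraMap k K (D.e1 i)) =
          T⁻¹ * algebraMap k K (D.e0 i) + algebraMap k K (D.e1 i) := by
        field_simp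
      rw [e]
      have := (hi.mul (isRes_const (D.e0 i))).add (isRes_const (D.e1 i))
      rwa [zero_mul, zero_add] at this)
  rw [same_scale] at hb2
  have e1 : D.pt T x y = WPt.mk (affC (D.base T) x y (base_ne D T) (base_eqn D he)) :=
    apt_eq (base_ne D T) (base_eqn D he)
  refine ⟨b, by rw [e1, hb2], ?_⟩
  rw [hb1]
  ring

end Pool.Agent.Helper83.CHA

end CX
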