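import Mathlib
import Pool.Agent.Helper98.CHA.Ctc
import Pool.Agent.Helper98.CHA.Kf
import Pool.Agent.Helper40.CX.H83VN.Iface
import Pool.Agent.Helper40.CX.H83KV.FF
import Pool.Agent.Helper40.CX.H51EW.Odd2
import Pool.Agent.Helper40.CX.Good2

namespace CX

/-!
# The function fields of the path: definitions
-/

set_option linter.unusedSectionVars false

namespace Pool.Agent.Helper83.CHA

open VC VF Function Polynomial
open Pool.Agent.Helper83.VN Pool.Agent.Helper51.EW Pool.Agent.Helper51.VN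

universe u

variable {k : Type u} [Field k] [IsAlgClosed k] [Good k] {W : Wei k} {D : Cor W} {n : ℕ}
  {T : Fin n → k} {V₀ : V4 k} {ξ η : k}

/-- The first function field: it contains the parameter `s`, the roots `t i` of the pencil, square
roots `κ i` of `a (t i) ^ 3`, the coordinate `y` of the total point and `μ` with
`Xp (s) = μ ^ 2 + A / μ ^ 2`. -/
structure Fl1 (C : Con D T V₀ ξ η) (K : Type u) [Field K] [Algebra k K] where
  hK : IsFunctionField k K
  s : K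
  tr : Transcendental k s
  t : Fin n → K
  κ : Fin n → K
  y : K
  μ : K
  pen : Pen T C.q s t
  hκ : ∀ i, κ i ^ 2 = D.a (t i) ^ 3
  hy : y ^ 2 = aeval s C.Op ^ 2 - algebraMap k K C.c * s ^ (6 * W.N)
  hyc : C.c = 0 → y = aeval s C.Op
  hμ : μ ≠ 0
  hξ : μ ^ 2 + (∏ i, D.a (t i)) / μ ^ 2 = aeval s C.Xp

section fl1

variable {C : Con D T V₀ ξ η} {K : Type u} [Field K] [Algebra k K] (F : Fl1 C K)

/-- The product of the `a (t i)`. -/
noncomputable def Fl1.A : K := ∏ i, D.a (F.t i)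

/-- `ρ = κ / A`, `ρ ^ 2 = A`. -/
noncomputable def Fl1.ρ : K := (∏ i, F.κ i) / F.A

/-- The four-vector over `K`. -/
noncomputable def Fl1.V : V4 K := C.V.ev F.s

/-- The coordinate `z` of the total point for a given `m` (it will be used for `m = μ` and for
`m = ρ / μ`). -/
noncomputable def Fl1.zT (m : K) : K := (m ^ 6 - F.V.Q.eval 4 + m ^ 3 * F.y) / 2

/-- The four-vector of the chain. -/
noncomputable def Fl1.Vt (m : K) : V4 K := F.V.tor (F.zT m / F.V.z)

/-- The labels. -/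
noncomputable def Fl1.lab : List (Fin n × K × K) := List.ofFn fun i => (i, D.b (F.t i), F.κ i)

end fl1

/-- The second function field: it contains moreover the chains with four-vectors `Vt μ` and
`Vt (ρ / μ)`, and sixth roots of the `Υ (z i)`. -/
structure Fl2 (C : Con D T V₀ ξ η) (K : Type u) [Field K] [Algebra k K] extends Fl1 C K where
  d : List (Ed (Fin n) K)
  d' : List (Ed (Fin n) K)
  v : Fin n → K
  v' : Fin n → K
  hd : d.map Ed.lab = toFl1.lab
  hd' : d'.map Ed.lab = toFl1.lab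
  fd : FineC d
  fd' : FineC d'
  vd : vec d = toFl1.Vt μ
  vd' : vec d' = toFl1.Vt (toFl1.ρ / μ)
  hv : ∀ i, OnX (D.b (t i)) (D.d (t i)) (zof d i) (v i)
  hv' : ∀ i, OnX (D.b (t i)) (D.d (t i)) (zof d' i) (v' i)
  pv : ∏ i, v i = toFl1.ρ / μ
  pv' : ∏ i, v' i = μ

/-- The hypotheses on the given chain over `k`. -/
structure Chn (D : Cor W) (T : Fin n → k) (V₀ : V4 k) (ξ η : k) (c : List (Ed (Fin n) k))
    (μ : k) : Prop where
  ch : IsChain (fun i => D.a (T i)) (fun i => D.b (T i)) c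
  ha : ∀ i, D.a (T i) ≠ 0
  good : GoodC c
  hvec : vec c = V₀
  hz : V₀.z ≠ 0
  hz' : V₀.z' ≠ 0
  hμ : μ ≠ 0
  hN : μ ^ 6 = V₀.N
  hξ : xi (∏ i, D.a (T i)) μ = ξ
  hη : V₀.y μ = η
  four : ∀ x, Four V₀ (rho (fun i => D.a (T i)) c) μ x → GoodC (fam c x)

/-- The coordinate `z` of the total point belonging to `m` and the sign `ε`, divided by the one
of `V₀`. -/
noncomputable def xm (V₀ : V4 k) (η ε m : k) : k :=
  (m ^ 6 - V₀.Q.eval 4 + m ^ 3 * (ε * η)) / 2 / V₀.z

/-- The flat transform of the chain `c₁`. -/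
noncomputable def flc (D : Cor W) (T : Fin n → k) (c₁ : List (Ed (Fin n) k)) (m : k) :
    List (Ed (Fin n) k) :=
  fam c₁ ((vec c₁).flat (rho (fun i => D.a (T i)) c₁) m)

/-- The chain `c₁` over `k` to which the chain over `K` reduces at a place over `s = 0`: the part
which does not depend on the place. -/
structure AtK (D : Cor W) (T : Fin n → k) (V₀ : V4 k) (ξ η : k) (c : List (Ed (Fin n) k))
    (π : Equiv.Perm (Fin n)) (κ₀ : Fin n → k) (ε m : k) (c₁ : List (Ed (Fin n) k)) : Prop where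
  hκ : ∀ i, κ₀ i ^ 2 = D.a (T (π i)) ^ 3
  hε : ε = 1 ∨ ε = -1
  hm : m ≠ 0
  hξ : xi (∏ i, D.a (T i)) m = ξ
  hx : xm V₀ η ε m ≠ 0
  hl : c₁.map Ed.lab = List.ofFn (fun i => (π i, D.b (T (π i)), κ₀ i))
  hp : Relation.ReflTransGen Adj (fam c (xm V₀ η ε m)) c₁
  hf : FineC c₁
  ch : IsChain (fun i => D.a (T i)) (fun i => D.b (T i)) c₁
  hv : vec c₁ = V₀.tor (xm V₀ η ε m)
  hz : (vec c₁).z ≠ 0
  hN : (vec c₁).N = m ^ 6
  hy : (vec c₁).y m = ε * η
  hf' : FineC (flc D T c₁ m)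
  hx' : xm V₀ η ε (rho (fun i => D.a (T i)) c₁ / m) ≠ 0
  hv' : vec (flc D T c₁ m) = V₀.tor (xm V₀ η ε (rho (fun i => D.a (T i)) c₁ / m))

/-- The part which depends on the place. -/
structure AtW {C : Con D T V₀ ξ η} {K : Type u} [Field K] [Algebra k K] (F : Fl1 C K)
    (w : Place k K) (π : Equiv.Perm (Fin n)) (κ₀ : Fin n → k) (ε m : k) : Prop where
  ht : ∀ i, IsRes w (F.t i) (T (π i))
  hκ₀ : ∀ i, IsRes w (F.κ i) (κ₀ i)
  hκ : ∀ i, κ₀ i ^ 2 = D.a (T (π i)) ^ 3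
  hε : ε = 1 ∨ ε = -1
  hy : IsRes w F.y (ε * η)
  hyc : C.c = 0 → ε = 1
  hμm : IsRes w F.μ m
  hm : m ≠ 0
  hξ : xi (∏ i, D.a (T i)) m = ξ
  hV : V4.Res w F.V V₀

end Pool.Agent.Helper83.CHA

end CX
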