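import Mathlib
import Pool.Agent.Helper98.CHA.Fld
import Pool.Agent.Helper40.CX.H51EW.Path
import Pool.Agent.Helper40.CX.Good2

namespace CX

/-!
# Block VN-F1R: the values over `s = 0`

`pencil_res` (`Helper51/EW/Path.lean`, with `ρ = X`) and `exists_perm_of_prod` give `π`.
`exists_res_of_pow` gives the values of the `κ i` and of `y` (`y ^ 2` has the value
`C.Op.eval 0 ^ 2 = η ^ 2`, as `6 N ≠ 0`; for `C.c = 0` one has `y = aeval s C.Op`). The value of
`m = μ ^ 2` is a root of `X ^ 2 - ξ X + A₀`, `A₀ = ∏ D.a (T i) ≠ 0`: `μ ^ 2` is regular because it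
is integral (if it had a pole, divide `μ ^ 4 - Xp μ ^ 2 + A = 0` by `μ ^ 4`).
`V4.Res`: the coefficients are `aeval s (...)`, and `C.hV`.
-/

set_option linter.unusedSectionVars false

namespace Pool.Agent.Helper83.CHA

open VC VF Function Polynomial
open Pool.Agent.Helper83.VN Pool.Agent.Helper51.EW Pool.Agent.Helper51.VN

universe u

variable {k : Type u} [Field k] [IsAlgClosed k] [Good k] {W : Wei k} {D : Cor W} {n : ℕ}
  {T : Fin n → k} {V₀ : V4 k} {ξ η : k} {C : Con D T V₀ ξ η} {c : List (Ed (Fin n) k)} {μ : k}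

private lemma res_coeff {K : Type u} [Field K] [Algebra k K] {w : Place k K} {s : K}
    (hs : IsRes w s 0) (p : k[X][X]) (m : ℕ) :
    IsRes w ((p.map (aeval s : k[X] →ₐ[k] K).toRingHom).coeff m)
      ((p.map (evalRingHom 0)).coeff m) := by
  rw [coeff_map, coeff_map]
  exact hs.poly (p := p.coeff m)

theorem exists_atW (C : Con D T V₀ ξ η) (hN : 1 ≤ W.N) (ha : ∀ i, D.a (T i) ≠ 0) {K : Type u}
    [Field K] [Algebra k K] (F : Fl1 C K) (w : Place k K) (hs : IsRes w F.s 0) :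
    ∃ (π : Equiv.Perm (Fin n)) (κ₀ : Fin n → k) (ε m : k), AtW F w π κ₀ ε m := by
  classical
  have hK := F.hK
  -- the roots of the pencil
  have hmain : ∏ i, (X - Polynomial.C (F.t i)) =
      (∏ i, (X - Polynomial.C (T i))).map (algebraMap k K) +
        Polynomial.C (aeval F.s (X : k[X])) * C.q.map (algebraMap k K) := by
    rw [aeval_X]
    exact F.pen
  obtain ⟨tb, htb, hpr⟩ := pencil_res hK C.hq hmain w hs
  have hpoly : ∏ i, (X - Polynomial.C (tb i)) = ∏ i, (X - Polynomial.C (T i)) := by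
    apply Polynomial.funext
    intro z
    rw [eval_prod, eval_prod]
    simp only [eval_sub, eval_X, eval_C]
    rw [hpr z, eval_X, zero_mul, add_zero]
  obtain ⟨π, hπ⟩ := exists_perm_of_prod hpoly
  have ht : ∀ i, IsRes w (F.t i) (T (π i)) := by
    intro i
    rw [← hπ i]
    exact htb i
  have hav : ∀ i, IsRes w (D.a (F.t i)) (D.a (T (π i))) := by
    intro i
    have h1 := (ht i).poly (p := D.al)
    unfold Cor.a
    rw [coe_aeval_eq_eval]
    exact h1
  -- the roots `κ`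
  have hκe : ∀ i, ∃ e, IsRes w (F.κ i) e ∧ e ^ 2 = D.a (T (π i)) ^ 3 := by
    intro i
    apply exists_res_of_pow hK two_ne_zero
    rw [F.hκ i]
    exact (hav i).pow 3
  choose κ₀ hκ1 hκ2 using hκe
  -- the coordinate `y`
  have hyv : ∃ ε : k, (ε = 1 ∨ ε = -1) ∧ IsRes w F.y (ε * η) ∧ (C.c = 0 → ε = 1) := by
    have hO : IsRes w (aeval F.s C.Op) η := by
      have h1 := hs.poly (p := C.Op)
      rw [C.hOp] at h1
      exact h1
    by_cases hc : C.c = 0
    · refine ⟨1, Or.inl rfl, ?_, fun _ => rfl⟩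
      rw [one_mul, F.hyc hc]
      exact hO
    · obtain ⟨e, he, he2⟩ : ∃ e, IsRes w F.y e ∧ e ^ 2 = η ^ 2 := by
        apply exists_res_of_pow hK two_ne_zero
        rw [F.hy]
        have h1 := (hO.pow 2).sub ((isRes_const (v := w) C.c).mul (hs.pow (6 * W.N)))
        rw [zero_pow (by omega : 6 * W.N ≠ 0), mul_zero, sub_zero] at h1
        exact h1
      rcases sq_eq_sq_iff_eq_or_eq_neg.mp he2 with h | h
      · rw [h] at he
        exact ⟨1, Or.inl rfl, by rw [one_mul]; exact he, fun h0 => absurd h0 hc⟩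
      · rw [h] at he
        exact ⟨-1, Or.inr rfl, by rw [neg_one_mul]; exact he, fun h0 => absurd h0 hc⟩
  obtain ⟨ε, hε, hyε, hyc⟩ := hyv
  -- the product of the `a`
  have hA : IsRes w (∏ i, D.a (F.t i)) (∏ i, D.a (T i)) := by
    have h1 : IsRes w (∏ i, D.a (F.t i)) (∏ i, D.a (T (π i))) :=
      IsRes.prod' _ fun i _ => hav i
    rwa [Equiv.prod_comp π (fun i => D.a (T i))] at h1
  have hA0 : ∏ i, D.a (T i) ≠ 0 := Finset.prod_ne_zero_iff.mpr fun i _ => ha i
  have hX : IsRes w (aeval F.s C.Xp) ξ := by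
    have h1 := hs.poly (p := C.Xp)
    rw [C.hXp] at h1
    exact h1
  have hμ0 := F.hμ
  have hμ2 : F.μ ^ 2 ≠ 0 := pow_ne_zero 2 hμ0
  have heq : (F.μ ^ 2) ^ 2 - aeval F.s C.Xp * F.μ ^ 2 + ∏ i, D.a (F.t i) = 0 := by
    rw [← F.hξ]
    field_simp
    ring
  -- `μ ^ 2` is regular
  have hreg : F.μ ^ 2 ∈ w.ring := by
    by_contra hn
    have h1 : (F.μ ^ 2)⁻¹ ∈ w.ring.nonunits := by
      rw [ValuationSubring.mem_nonunits_iff_or]
      right
      rw [inv_inv]
      exact hn
    have h2 : (1 : K) = aeval F.s C.Xp * (F.μ ^ 2)⁻¹ -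
        (∏ i, D.a (F.t i)) * (F.μ ^ 2)⁻¹ * (F.μ ^ 2)⁻¹ := by
      field_simp
      linear_combination heq
    have h3 : (1 : K) ∈ w.ring.nonunits := by
      rw [h2, sub_eq_add_neg]
      refine nonunits_add (nonunits_mul hX.mem h1) ?_
      rw [← neg_mul]
      refine nonunits_mul ?_ h1
      exact w.ring.neg_mem _ (w.ring.mul_mem _ _ hA.mem (nonunits_le h1))
    exact one_notMem h3
  obtain ⟨m, hm⟩ := exists_res hK (mem_of_pow two_ne_zero hreg)
  have hmeq : (m ^ 2) ^ 2 - ξ * m ^ 2 + ∏ i, D.a (T i) = 0 := by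
    have h1 := (((hm.pow 2).pow 2).sub (hX.mul (hm.pow 2))).add hA
    rw [heq] at h1
    exact h1.unique isRes_zero
  have hm0 : m ≠ 0 := by
    rintro rfl
    apply hA0
    rw [← hmeq]
    ring
  have hξm : xi (∏ i, D.a (T i)) m = ξ := by
    unfold xi
    field_simp
    linear_combination hmeq
  refine ⟨π, κ₀, ε, m, ⟨ht, hκ1, hκ2, hε, hyε, hyc, hm, hm0, hξm, ?_⟩⟩
  have hV := C.hV
  have hU := congrArg V4.U hV
  have hU' := congrArg V4.U' hV
  have hQ := congrArg V4.Q hV
  have hR := congrArg V4.R hV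
  refine ⟨fun j => ?_, fun j => ?_, fun j => ?_, fun j => ?_⟩
  · have h1 := res_coeff hs C.V.U j
    rw [show C.V.U.map (evalRingHom 0) = V₀.U from hU] at h1
    exact h1
  · have h1 := res_coeff hs C.V.U' j
    rw [show C.V.U'.map (evalRingHom 0) = V₀.U' from hU'] at h1
    exact h1
  · have h1 := res_coeff hs C.V.Q j
    rw [show C.V.Q.map (evalRingHom 0) = V₀.Q from hQ] at h1
    exact h1
  · have h1 := res_coeff hs C.V.R j
    rw [show C.V.R.map (evalRingHom 0) = V₀.R from hR] at h1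
    exact h1

end Pool.Agent.Helper83.CHA

end CX
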