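import Mathlib
import Pool.Agent.Helper98.CHA.F2ex
import Pool.Agent.Helper98.CHA.Ctb
import Pool.Agent.Helper98.CHA.Val0
import Pool.Agent.Helper98.CHA.Inf
import Pool.Agent.Helper98.CHA.Dv
import Pool.Agent.Helper40.CX.Good2

namespace CX

/-!
# Block VN-KEY: the function on the total curve vanishes

`star`, `Q_zero`, `deg_vec`, `zz` (Iface) give the hypotheses of `exists_con` for `V₀ = vec c`
(`η ^ 2 = ξ ^ 3 - 3 A ξ - 2 Q (4)` from `ξ = μ ^ 2 + A / μ ^ 2`, `η = (z - z') / μ ^ 3`,
`μ ^ 6 = N = z + b + z'`, `4 z z' = b ^ 2 - A ^ 3`); `exists_fl2` gives the field. The function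
`Θ = KF (zof d) v + KF (zof d') v'` is orthogonal to principal divisors (`kf_harm`).
Case `C.c = 0`: `f = s`; at places over `0` the value is `G₀ = sign σ * Gam c μ` (`Fl2.val0`), over
`∞` it is `0` (`Fl1.inf_one`), so `0 = (∑ ord s) G₀` with a positive sum (there is a place over `0`).
Case `C.c ≠ 0`, `η ≠ 0`: `f = (y - Op) / (y + Op)`, `Fl1.dv`: again `0 = 6 N (∑ ord s) G₀`.
Case `η = 0`: `Gam c (- μ) = Gam c μ` by `VN.gam_eq` (same chain, same `σ`, `μ' = - μ`,
`V₀.y (- μ) = - η = η`) and `Gam c (- μ) = - Gam c μ` by `gam_neg`.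
-/

set_option linter.unusedSectionVars false

namespace Pool.Agent.Helper83.CHA

open VC VF Function Polynomial
open Pool.Agent.Helper83.VN Pool.Agent.Helper51.EW Pool.Agent.Helper51.VN

universe u

variable {k : Type u} [Field k] [IsAlgClosed k] [Good k] {W : Wei k} {D : Cor W} {n : ℕ}
  {T : Fin n → k} {V₀ : V4 k} {ξ η : k} {C : Con D T V₀ ξ η} {c : List (Ed (Fin n) k)} {μ : k}

section aux

variable {F : Type*} [Field F]

private lemma h93_perm {n : ℕ} {a b : Fin n → F} {c : List (Ed (Fin n) F)} (h : IsChain a b c) :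
    c.length = n ∧ ∃ σ : Equiv.Perm (Fin n), c.map (fun e => e.i) = List.ofFn σ := by
  have hu : (c.map fun e => e.i).toFinset = Finset.univ := by
    ext i
    simp only [List.mem_toFinset, Finset.mem_univ, iff_true]
    exact h.all i
  have hl : (c.map fun e => e.i).length = n := by
    rw [← List.toFinset_card_of_nodup h.nodup, hu, Finset.card_univ, Fintype.card_fin]
  have hl' : c.length = n := by
    have h2 := hl
    rwa [List.length_map] at h2
  refine ⟨hl', ?_⟩
  obtain ⟨l, hld⟩ : ∃ l, l = c.map fun e => e.i := ⟨_, rfl⟩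
  have hnd : l.Nodup := hld ▸ h.nodup
  rw [← hld] at hl ⊢
  let f : Fin n → Fin n := fun i => l.get (Fin.cast hl.symm i)
  have hf : Function.Injective f := by
    intro i j hij
    have := hnd.injective_get hij
    exact Fin.cast_injective _ this
  refine ⟨Equiv.ofBijective f (Finite.injective_iff_bijective.1 hf), ?_⟩
  apply List.ext_getElem
  · rw [List.length_ofFn, hl]
  · intro i h1 h2
    rw [List.getElem_ofFn]
    rfl

private lemma h93_prod {n : ℕ} {a b : Fin n → F} {c : List (Ed (Fin n) F)} (h : IsChain a b c) {M : Type*} [CommMonoid M]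
    (g : Fin n → M) : (c.map fun e => g e.i).prod = ∏ i, g i := by
  obtain ⟨-, σ, hσ⟩ := h93_perm h
  have e1 : (c.map fun e => g e.i) = (c.map fun e => e.i).map g := by
    rw [List.map_map]
    rfl
  rw [e1, hσ, List.map_ofFn, List.prod_ofFn]
  exact Equiv.prod_comp σ g

private lemma h93_fine {ι : Type*} {c : List (Ed ι F)} (h : FineC c) : ∀ e ∈ c, e.Fine := by
  induction c with
  | nil => intro e he; simp at he
  | cons e c ih =>
    intro e' he'
    obtain ⟨h1, h2, h3, h4, h5⟩ := h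
    rcases List.mem_cons.1 he' with rfl | he'
    · exact h1
    · exact ih h5 e' he'

private lemma h93_kap {n : ℕ} {a b : Fin n → F} {c : List (Ed (Fin n) F)} (h : IsChain a b c) :
    kap c ^ 2 = (∏ i, a i) ^ 3 := by
  have e1 : kap c ^ 2 = (c.map fun e => e.κ ^ 2).prod := by
    unfold kap
    clear h
    induction c with
    | nil => simp
    | cons e c ih =>
      simp only [List.map_cons, List.prod_cons]
      rw [mul_pow, ih]
  rw [e1, ← Finset.prod_pow, ← h93_prod h (fun i => a i ^ 3)]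
  congr 1
  apply List.map_congr_left
  intro e he
  exact h.hκ e he

private lemma h93_good {ι : Type*} {c : List (Ed ι F)} (h : GoodC c) : FineC c := h c Relation.ReflTransGen.refl

private lemma h93_tor_one (V : V4 F) : V.tor 1 = V := by
  unfold V4.tor
  simp

private lemma h93_x_ne {ι : Type*} {c : List (Ed ι F)} (h : FineC c) (hc : c ≠ []) {V : V4 F} {x : F}
    (hv : vec c = V.tor x) : x ≠ 0 := by
  rintro rfl
  cases c with
  | nil => exact hc rfl
  | cons e c =>
    obtain ⟨-, -, -, h4, -⟩ := h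
    apply h4
    have h5 : act e (vec c) = V.tor 0 := hv
    rw [h5]
    simp [V4.tor]

end aux

theorem gam_zero {ω : k} {θ : ℂ} (hω : Cub ω θ) (h1 : 1 ≤ W.N) (hn : W.N + 1 ≤ n)
    {Ψ : (W.surface.pow n).Pt → ℂ} {g : k} (h : OddC D n g Ψ) (hgT : Prc g T) (H : Chn D T V₀ ξ η c μ) :
    Gam ω θ (fun i => D.a (T i)) (fun i => D.b (T i)) (psT D Ψ T) c μ = 0 := by
  classical
  have hn0 : n ≠ 0 := by omega
  have hψ := fun_psT D h hgT
  have hfc := h93_good H.good
  have hfine := h93_fine hfc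
  obtain ⟨hlen, σ, hσ⟩ := h93_perm H.ch
  -- the case `η = 0`
  by_cases hη0 : η = 0
  · have hneg := gam_neg hω hn0 hψ c μ
    have hz0 : (vec c).z ≠ 0 := by rw [H.hvec]; exact H.hz
    have hy0 : (vec c).y μ = 0 := by rw [H.hvec, H.hη, hη0]
    have hgood : ∀ x₁ : k, (x₁ = 1 ∨ x₁ = (vec c).flat (rho (fun i => D.a (T i)) c) μ) →
        GoodC (fam c x₁) ∧ GoodC (fam c (x₁ * ((vec (fam c x₁)).z' / (vec (fam c x₁)).z))) := by
      intro x₁ hx₁
      rcases hx₁ with rfl | hx₁
      · refine ⟨H.four 1 (Or.inl rfl), ?_⟩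
        rw [fam_one hfc, one_mul, H.hvec]
        exact H.four _ (Or.inr (Or.inl rfl))
      · have hf1 : Four V₀ (rho (fun i => D.a (T i)) c) μ x₁ := by
          rw [H.hvec] at hx₁
          exact Or.inr (Or.inr (Or.inl hx₁))
        refine ⟨H.four x₁ hf1, ?_⟩
        by_cases hx0 : x₁ = 0
        · rw [hx0, zero_mul]
          rw [hx0] at hf1
          exact H.four 0 hf1
        · rw [vec_fam hfc hx0 (h93_good (H.four x₁ hf1)), VN.tor_z, VN.tor_z', H.hvec]
          apply H.four
          right; right; right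
          rw [H.hvec] at hx₁
          rw [← hx₁]
          field_simp
    have hh := VN.gam_eq hω hn0 hψ H.ch H.ch hfc (x := 1) (μ := μ) (μ' := -μ) one_ne_zero (h93_tor_one _).symm
      H.hμ (neg_ne_zero.2 H.hμ) (by rw [H.hvec]; exact H.hN) (by rw [H.hvec, neg_pow, H.hN]; ring)
      (by unfold xi; rw [neg_sq]) (by
        rw [hy0]
        unfold V4.y at hy0 ⊢
        rw [neg_pow, div_eq_zero_iff] at *
        rcases hy0 with h2 | h2
        · rw [h2, zero_div]
        · exact absurd h2 (pow_ne_zero _ H.hμ)) hz0 hgood hσ hσ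
    have hs : (((Equiv.Perm.sign σ : ℤˣ) : ℤ) : ℂ) ≠ 0 := by
      rcases Int.units_eq_one_or (Equiv.Perm.sign σ) with h2 | h2 <;> rw [h2] <;> simp
    have h3 := mul_left_cancel₀ hs hh
    rw [hneg] at h3
    exact self_eq_neg.1 h3.symm
  -- existence of the contact data
  have hed : ∀ e ∈ c, e.s * e.t = D.d (T e.i) / 4 := by
    intro e he
    unfold Ed.s Ed.t Cor.d
    have h2 := H.ch.hb e he
    have h3 := H.ch.hκ e he
    rw [← h2, ← h3]
    field_simp
    ring
  have hV : V₀.form = ∏ i, (Polynomial.C (D.b (T i) ^ 2) - Polynomial.C (D.d (T i) / 4) * X) := by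
    rw [← H.hvec, star hfine, ← h93_prod H.ch (fun i => Polynomial.C (D.b (T i) ^ 2) - Polynomial.C (D.d (T i) / 4) * X)]
    congr 1
    apply List.map_congr_left
    intro e he
    rw [hed e he, H.ch.hb e he]
  have hQ : V₀.Q.eval 0 = ∏ i, D.b (T i) := by
    rw [← H.hvec, Q_zero, ← h93_prod H.ch (fun i => D.b (T i))]
    congr 1
    apply List.map_congr_left
    intro e he
    exact H.ch.hb e he
  have hd : V₀.Deg n := by
    have h2 := deg_vec c
    rw [hlen] at h2
    rw [← H.hvec]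
    exact h2
  have hzz : 4 * V₀.z * V₀.z' = V₀.Q.eval 4 ^ 2 - (∏ i, D.a (T i)) ^ 3 := by
    rw [← H.hvec, zz hfine, h93_kap H.ch]
  have hμ6 : μ ^ 6 = V₀.z + V₀.Q.eval 4 + V₀.z' := by rw [H.hN, VN.N_eq]
  have hηe : η ^ 2 = ξ ^ 3 - 3 * (∏ i, D.a (T i)) * ξ - 2 * V₀.Q.eval 4 := by
    rw [← H.hη, ← H.hξ]
    unfold V4.y xi
    have hμ := H.hμ
    field_simp
    have h2 : (V₀.z - V₀.z') ^ 2 = (V₀.z + V₀.z') ^ 2 - 4 * V₀.z * V₀.z' := by ring
    rw [h2, hzz]
    have h3 : V₀.z + V₀.z' = μ ^ 6 - V₀.Q.eval 4 := by rw [hμ6]; ring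
    rw [h3]
    ring
  obtain ⟨C⟩ := exists_con D h1 hn hV hQ hd hηe
  obtain ⟨K, i1, i2, ⟨F⟩⟩ := exists_fl2 H C h1 hn0
  set G₀ : ℂ := (((Equiv.Perm.sign σ : ℤˣ) : ℤ) : ℂ) * Gam ω θ (fun i => D.a (T i))
          (fun i => D.b (T i)) (psT D Ψ T) c μ with hG₀
  have hs0 : (((Equiv.Perm.sign σ : ℤˣ) : ℤ) : ℂ) ≠ 0 := by
    rcases Int.units_eq_one_or (Equiv.Perm.sign σ) with h2 | h2 <;> rw [h2] <;> simp
  suffices hG : G₀ = 0 by
    rw [hG₀] at hG
    exact (mul_eq_zero.1 hG).resolve_left hs0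
  set Θ : Place k K → ℂ := fun w => KF D ω θ Ψ F.hK F.t (zof F.d) F.v w + KF D ω θ Ψ F.hK F.t (zof F.d') F.v' w with hΘ
  have hgt : Prc g F.t := prc_pen hgT C.q0 F.pen
  have hharm : ∀ (f : K) (hf : f ≠ 0), ∑ w ∈ (finite_support_ord F.hK hf).toFinset, (ord w.ring f : ℂ) * Θ w = 0 := by
    intro f hf
    have e1 := kf_harm D ω θ F.hK hω h hgt F.hv f hf
    have e2 := kf_harm D ω θ F.hK hω h hgt F.hv' f hf
    rw [hΘ]
    simp only [mul_add, Finset.sum_add_distrib]
    rw [e1, e2, add_zero]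
  have hsne : F.s ≠ 0 := by
    intro h2
    have := F.tr
    rw [h2] at this
    exact this (isAlgebraic_zero)
  obtain ⟨w₀, hw₀⟩ := exists_place F.hK F.tr
  have hw₀' : IsRes w₀ F.s 0 := isRes_zero_iff.2 hw₀
  have hpos : ∀ w : Place k K, IsRes w F.s 0 → 0 < ord w.ring F.s := fun w hw =>
    (ord_pos_iff F.hK w hsne).2 (isRes_zero_iff.1 hw)
  by_cases hc : C.c = 0
  · -- `f = s`
    have e1 := hharm F.s hsne
    have e2 : ∀ w ∈ (finite_support_ord F.hK hsne).toFinset, (ord w.ring F.s : ℂ) * Θ w =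
        ((max (ord w.ring F.s) 0 : ℤ) : ℂ) * G₀ := by
      intro w hw
      have hw1 : ord w.ring F.s ≠ 0 := by simpa using hw
      by_cases hw2 : IsRes w F.s 0
      · obtain ⟨-, δ, -, -, hε, hval⟩ := F.val0 H h1 hω hn0 h hgT hσ w hw2
        have e3 : Θ w = G₀ := by
          rw [hΘ]
          simp only
          rw [hval, hε hc, one_mul]
        rw [e3, max_eq_left (hpos w hw2).le]
      · have hw3 : F.s ∉ w.ring := by
          intro hmem
          have h2 := (ord_nonneg_iff F.hK w hsne).2 hmem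
          have h3 : 0 < ord w.ring F.s := lt_of_le_of_ne h2 (Ne.symm hw1)
          exact hw2 (isRes_zero_iff.2 ((ord_pos_iff F.hK w hsne).1 h3))
        have hle : ord w.ring F.s ≤ 0 := by
          by_contra hcon
          rw [not_le] at hcon
          exact hw2 (isRes_zero_iff.2 ((ord_pos_iff F.hK w hsne).1 hcon))
        have hlab : F.toFl1.lab ≠ [] := by
          unfold Fl1.lab
          intro h2
          have h3 := congrArg List.length h2
          rw [List.length_ofFn, List.length_nil] at h3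
          exact hn0 h3
        have hdne : F.d ≠ [] := by
          intro h2
          apply hlab
          rw [← F.hd, h2, List.map_nil]
        have hdne' : F.d' ≠ [] := by
          intro h2
          apply hlab
          rw [← F.hd', h2, List.map_nil]
        have z1 := F.toFl1.inf_one H.ha H.hz H.hz' hω h hc w hw3 F.hd F.fd
          (x := F.toFl1.zT F.μ / F.toFl1.V.z) (h93_x_ne F.fd hdne F.vd) F.vd F.hv (Or.inl F.pv)
        have z2 := F.toFl1.inf_one H.ha H.hz H.hz' hω h hc w hw3 F.hd' F.fd'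
          (x := F.toFl1.zT (F.toFl1.ρ / F.μ) / F.toFl1.V.z) (h93_x_ne F.fd' hdne' F.vd') F.vd' F.hv' (Or.inr F.pv')
        have e3 : Θ w = 0 := by
          rw [hΘ]
          simp only
          rw [z1, z2, add_zero]
        rw [e3, mul_zero, max_eq_right hle, Int.cast_zero, zero_mul]
    rw [Finset.sum_congr rfl e2, ← Finset.sum_mul, ← Int.cast_sum] at e1
    rcases mul_eq_zero.1 e1 with e4 | e4
    · exfalso
      rw [Int.cast_eq_zero] at e4
      have h5 : 0 < ∑ w ∈ (finite_support_ord F.hK hsne).toFinset, max (ord w.ring F.s) 0 := by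
        refine Finset.sum_pos' (fun w _ => le_max_right _ _) ⟨w₀, ?_, ?_⟩
        · have := hpos w₀ hw₀'
          simp only [Set.Finite.mem_toFinset, Function.mem_support]
          exact this.ne'
        · exact lt_max_of_lt_left (hpos w₀ hw₀')
      omega
    · exact e4
  · -- `f = (y - Op) / (y + Op)`
    obtain ⟨d1, d2, d3, d4⟩ := F.toFl1.dv h1 hc hη0
    have hf : (F.y - aeval F.s C.Op) / (F.y + aeval F.s C.Op) ≠ 0 := div_ne_zero d1 d2
    have e1 := hharm _ hf
    have e2 : ∀ w ∈ (finite_support_ord F.hK hf).toFinset,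
        (ord w.ring ((F.y - aeval F.s C.Op) / (F.y + aeval F.s C.Op)) : ℂ) * Θ w =
        ((6 * W.N * ord w.ring F.s : ℤ) : ℂ) * G₀ := by
      intro w hw
      have hw1 : ord w.ring ((F.y - aeval F.s C.Op) / (F.y + aeval F.s C.Op)) ≠ 0 := by simpa using hw
      have hw2 : IsRes w F.s 0 := by
        by_contra hcon
        exact hw1 (d3 w hcon)
      obtain ⟨ε, δ, hε, hy, -, hval⟩ := F.val0 H h1 hω hn0 h hgT hσ w hw2
      have e3 : Θ w = δ * G₀ := by
        rw [hΘ]
        simp only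
        rw [hval]
      rcases hε with ⟨rfl, rfl⟩ | ⟨rfl, rfl⟩
      · rw [one_mul] at hy
        rw [(d4 w hw2).1 hy, e3, one_mul]
      · rw [neg_one_mul] at hy
        rw [(d4 w hw2).2 hy, e3, neg_one_mul, Int.cast_neg]
        ring
    rw [Finset.sum_congr rfl e2, ← Finset.sum_mul, ← Int.cast_sum] at e1
    rcases mul_eq_zero.1 e1 with e4 | e4
    · exfalso
      rw [Int.cast_eq_zero] at e4
      have hsupp : ∀ w ∈ (finite_support_ord F.hK hf).toFinset, 0 < 6 * (W.N : ℤ) * ord w.ring F.s := by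
        intro w hw
        have hw1 : ord w.ring ((F.y - aeval F.s C.Op) / (F.y + aeval F.s C.Op)) ≠ 0 := by simpa using hw
        have hw2 : IsRes w F.s 0 := by
          by_contra hcon
          exact hw1 (d3 w hcon)
        have := hpos w hw2
        positivity
      have h5 : 0 < ∑ w ∈ (finite_support_ord F.hK hf).toFinset, (6 * (W.N : ℤ) * ord w.ring F.s) := by
        refine Finset.sum_pos hsupp ⟨w₀, ?_⟩
        have h6 := hpos w₀ hw₀'
        rw [Set.Finite.mem_toFinset]
        change ord w₀.ring ((F.y - aeval F.s C.Op) / (F.y + aeval F.s C.Op)) ≠ 0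
        obtain ⟨ε, δ, hε, hy, -, -⟩ := F.val0 H h1 hω hn0 h hgT hσ w₀ hw₀'
        have h7 : 0 < 6 * (W.N : ℤ) * ord w₀.ring F.s := by positivity
        rcases hε with ⟨rfl, -⟩ | ⟨rfl, -⟩
        · rw [one_mul] at hy
          rw [(d4 w₀ hw₀').1 hy]
          exact h7.ne'
        · rw [neg_one_mul] at hy
          rw [(d4 w₀ hw₀').2 hy]
          omega
      omega
    · exact e4

end Pool.Agent.Helper83.CHA

end CX
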