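import Mathlib
import Pool.Agent.Helper98.CHA.Key
import Pool.Agent.Helper40.CX.H83VN.Bad
import Pool.Agent.Helper40.CX.Good2

namespace CX

/-!
# Block VN-MV1: the functional vanishes at good chains

`ff_four`: for `v` put `p = ∏ v i`, `μ = rho c / p`; `p ^ 6 = upc c` and `nrel`, `rho_sq` give
`μ ^ 6 = N`. `gam_zero` for `μ` and `ω μ` and `VN.gf_zero_of_gam`, `VN.gf_eq`.

`ff_good`: `good_fam` and `bad_fin` give a finite set `B'` such that for `x ∉ B'` the hypotheses of
`ff_four` hold for `fam c x` (`fam_fam`, `vec_fam`). Then `VN.ff_app` on the line: `K = RatFunc k`,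
`cK = c.map (Ed.map (algebraMap k K))`, `z i = zof (fam cK X) i`, `w₀` a place with `X ↦ 1`
(`exists_place` for `X - 1`); the values at a place with `X ↦ x` are given by `fam_res` (from
`zof`: all labels are different), the exceptional places by `fin_pl`.
-/

set_option linter.unusedSectionVars false

namespace Pool.Agent.Helper83.CHA

open VC VF Function
open Pool.Agent.Helper83.VN Pool.Agent.Helper51.EW Pool.Agent.Helper51.VN

universe u

variable {k : Type u} [Field k] [IsAlgClosed k] [Good k] {W : Wei k} {D : Cor W} {n : ℕ}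
  {T : Fin n → k}

section lists

variable {ι F : Type*} [Field F]

private lemma mv1_fine {c : List (Ed ι F)} (h : FineC c) : ∀ e ∈ c, e.Fine := by
  induction c with
  | nil => intro e he; exact absurd he List.not_mem_nil
  | cons f c ih =>
    obtain ⟨h1, -, -, -, h5⟩ := h
    intro e he
    rcases List.mem_cons.mp he with h' | h'
    · rw [h']; exact h1
    · exact ih h5 e h'

private lemma mv1_lab (c : List (Ed ι F)) (x : F) : (fam c x).map Ed.lab = c.map Ed.lab := by
  induction c generalizing x with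
  | nil => rfl
  | cons e c ih =>
    change Ed.lab _ :: (fam c (dn e x)).map Ed.lab = _
    rw [ih, List.map_cons]
    rfl

private lemma mv1_i (c : List (Ed ι F)) (x : F) :
    ((fam c x).map fun e => e.i) = c.map fun e => e.i := by
  have := congrArg (List.map Prod.fst) (mv1_lab c x)
  rw [List.map_map, List.map_map] at this
  exact this

private lemma mv1_kap (c : List (Ed ι F)) (x : F) : kap (fam c x) = kap c := by
  have := congrArg (List.map (fun p : ι × F × F => p.2.2)) (mv1_lab c x)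
  rw [List.map_map, List.map_map] at this
  unfold kap
  exact congrArg List.prod this

private lemma mv1_mem {c : List (Ed ι F)} {x : F} {e' : Ed ι F} (he : e' ∈ fam c x) :
    ∃ e ∈ c, e'.i = e.i ∧ e'.b = e.b ∧ e'.κ = e.κ := by
  induction c generalizing x with
  | nil => exact absurd he List.not_mem_nil
  | cons f c ih =>
    rcases List.mem_cons.mp he with h | h
    · exact ⟨f, List.mem_cons_self, by rw [h], by rw [h], by rw [h]⟩
    · obtain ⟨e, h1, h2⟩ := ih h
      exact ⟨e, List.mem_cons_of_mem _ h1, h2⟩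

private lemma mv1_chain {a b : ι → F} {c : List (Ed ι F)} (hc : IsChain a b c) (x : F) :
    IsChain a b (fam c x) := by
  refine ⟨?_, ?_, ?_, ?_⟩
  · rw [mv1_i]; exact hc.nodup
  · intro i; rw [mv1_i]; exact hc.all i
  · intro e' he'
    obtain ⟨e, he, h1, h2, -⟩ := mv1_mem he'
    rw [h2, hc.hb e he, h1]
  · intro e' he'
    obtain ⟨e, he, h1, -, h3⟩ := mv1_mem he'
    rw [h3, hc.hκ e he, h1]

variable [DecidableEq ι]

private lemma mv1_zof_cons (e : Ed ι F) (c : List (Ed ι F)) (i : ι) :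
    zof (e :: c) i = (if e.i = i then e.z else 0) + zof c i := by
  unfold zof
  rw [List.map_cons, List.sum_cons]

private lemma mv1_zof_notMem {c : List (Ed ι F)} {i : ι} (h : i ∉ c.map fun e => e.i) :
    zof c i = 0 := by
  induction c with
  | nil => rfl
  | cons e c ih =>
    rw [List.map_cons, List.mem_cons, not_or] at h
    rw [mv1_zof_cons, if_neg (fun h0 => h.1 h0.symm), ih h.2, add_zero]

private lemma mv1_zof_mem {c : List (Ed ι F)} (hn : (c.map fun e => e.i).Nodup) {e : Ed ι F}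
    (he : e ∈ c) : zof c e.i = e.z := by
  induction c with
  | nil => exact absurd he (List.not_mem_nil)
  | cons f c ih =>
    rw [List.map_cons, List.nodup_cons] at hn
    rw [mv1_zof_cons]
    rcases List.mem_cons.mp he with h | h
    · subst h
      rw [if_pos rfl, mv1_zof_notMem hn.1, add_zero]
    · have hne : f.i ≠ e.i := by
        intro h0
        apply hn.1
        rw [h0]
        exact List.mem_map_of_mem h
      rw [if_neg hne, zero_add, ih hn.2 h]

private lemma mv1_upc [Fintype ι] [Good F] {a b : ι → F} {c : List (Ed ι F)}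
    (hc : IsChain a b c) {v : ι → F}
    (hv : ∀ i, OnX (b i) (b i ^ 2 - a i ^ 3) (zof c i) (v i)) :
    (∏ i, v i) ^ 6 = upc c := by
  have h1 : (∏ i, v i) ^ 6 = ∏ i, (v i) ^ 6 := by rw [Finset.prod_pow]
  have hS : (c.map fun e => e.i).toFinset = Finset.univ := by
    ext i
    simp only [List.mem_toFinset, Finset.mem_univ, iff_true]
    exact hc.all i
  rw [h1, ← hS, List.prod_toFinset _ hc.nodup, List.map_map]
  unfold upc
  congr 1
  apply List.map_congr_left
  intro e he
  change (v e.i) ^ 6 = e.ups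
  obtain ⟨hz, -, h6⟩ := hv e.i
  rw [mv1_zof_mem hc.nodup he] at hz h6
  rw [h6, ← hc.hκ e he, ← hc.hb e he]
  unfold Ed.ups Ed.s Ed.t
  field_simp
  ring

end lists

section res

variable {k : Type u} [Field k] [IsAlgClosed k] [Good k] {K : Type u} [Field K] [Algebra k K]
  {ι : Type*}

private lemma mv1_res_map (w : Place k K) (c : List (Ed ι k)) :
    List.Forall₂ (Ed.Res w) (c.map (Ed.map (algebraMap k K))) c := by
  induction c with
  | nil => exact List.Forall₂.nil
  | cons e c ih =>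
    exact List.Forall₂.cons ⟨isRes_const _, isRes_const _, isRes_const _⟩ ih

private lemma mv1_res_zof [DecidableEq ι] {w : Place k K} {c' : List (Ed ι K)}
    {c₀ : List (Ed ι k)}
    (h : List.Forall₂ (Ed.Res w) c' c₀) (hi : (c'.map fun e => e.i) = c₀.map fun e => e.i)
    (i : ι) : IsRes w (zof c' i) (zof c₀ i) := by
  induction h with
  | nil => exact isRes_zero
  | @cons e e₀ l l₀ h1 h2 ih =>
    rw [List.map_cons, List.map_cons, List.cons.injEq] at hi
    rw [mv1_zof_cons, mv1_zof_cons]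
    refine IsRes.add ?_ (ih hi.2)
    rw [hi.1]
    split_ifs
    · exact h1.2.2
    · exact isRes_zero

end res

/-- Good chains all of whose relatives are good. -/
theorem ff_four {ω : k} {θ : ℂ} (hω : Cub ω θ) (h1 : 1 ≤ W.N) (hn : W.N + 1 ≤ n)
    {Ψ : (W.surface.pow n).Pt → ℂ} {g : k} (h : OddC D n g Ψ) (hgT : Prc g T) (ha : ∀ i, D.a (T i) ≠ 0)
    {c : List (Ed (Fin n) k)} (hc : IsChain (fun i => D.a (T i)) (fun i => D.b (T i)) c)
    (hg : GoodC c) (hz : (vec c).z ≠ 0) (hz' : (vec c).z' ≠ 0)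
    (hf : ∀ μ : k, μ ≠ 0 → μ ^ 6 = (vec c).N → ∀ x,
      Four (vec c) (rho (fun i => D.a (T i)) c) μ x → GoodC (fam c x))
    (v : Fin n → k) (hv : ∀ i, OnX (D.b (T i)) (D.d (T i)) (zof c i) (v i)) :
    FF ω θ (fun i => D.a (T i)) (fun i => D.d (T i)) (psT D Ψ T) (zof c) v = 0 := by
  have hψ : Fun (fun i => D.a (T i)) (fun i => D.b (T i)) (psT D Ψ T) := fun_psT D h hgT
  have hn0 : n ≠ 0 := by omega
  have : Nonempty (Fin n) := ⟨⟨0, Nat.pos_of_ne_zero hn0⟩⟩
  obtain ⟨hρ, hκ⟩ := rho_sq hc ha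
  set A : k := ∏ i, D.a (T i) with hA
  have hA0 : A ≠ 0 := Finset.prod_ne_zero_iff.mpr fun i _ => ha i
  set ρ : k := rho (fun i => D.a (T i)) c with hρd
  have hρ0 : ρ ≠ 0 := by
    intro h0
    rw [h0] at hρ
    exact hA0 (by rw [← hρ]; ring)
  have hf0 : FineC c := hg c Relation.ReflTransGen.refl
  set p : k := ∏ i, v i with hp
  have hp0 : p ≠ 0 := Finset.prod_ne_zero_iff.mpr fun i _ => (hv i).2.1
  have hp6 : p ^ 6 = upc c := mv1_upc hc hv
  have hnr := nrel (mv1_fine hf0)
  have hμ0 : ρ / p ≠ 0 := div_ne_zero hρ0 hp0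
  have hμN : (ρ / p) ^ 6 = (vec c).N := by
    rw [← hp6, hκ, ← hρ] at hnr
    rw [div_pow, div_eq_iff (pow_ne_zero 6 hp0)]
    linear_combination -hnr
  have key : ∀ μ : k, μ ≠ 0 → μ ^ 6 = (vec c).N →
      Gam ω θ (fun i => D.a (T i)) (fun i => D.b (T i)) (psT D Ψ T) c μ = 0 := by
    intro μ hμ hμN
    have H : Chn D T (vec c) (xi A μ) ((vec c).y μ) c μ :=
      { ch := hc
        ha := ha
        good := hg
        hvec := rfl
        hz := hz
        hz' := hz'
        hμ := hμ
        hN := hμN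
        hξ := rfl
        hη := rfl
        four := hf μ hμ hμN }
    exact gam_zero hω h1 hn h hgT H
  have hω0 : ω ≠ 0 := by
    rintro rfl
    have h0 := hω.k
    norm_num at h0
  have hω6 : ω ^ 6 = 1 := by
    have h3 : ω ^ 3 = 1 := by linear_combination (ω - 1) * hω.k
    linear_combination (ω ^ 3 + 1) * h3
  have e1 := key (ρ / p) hμ0 hμN
  have e2 := key (ω * (ρ / p)) (mul_ne_zero hω0 hμ0) (by rw [mul_pow, hω6, one_mul, hμN])
  have e3 := VN.gf_zero_of_gam hω hψ e1 e2
  have e4 : rho (fun i => D.a (T i)) c / (ρ / p) = p := by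
    rw [← hρd]
    field_simp
  rw [e4] at e3
  have e5 := VN.gf_eq hω hψ (z := zof c) (v' := v) (v := p) hv rfl
  rw [e3] at e5
  exact e5.symm

theorem ff_good {ω : k} {θ : ℂ} (hω : Cub ω θ) (h1 : 1 ≤ W.N) (hn : W.N + 1 ≤ n)
    {Ψ : (W.surface.pow n).Pt → ℂ} {g : k} (h : OddC D n g Ψ) (hgT : Prc g T) (ha : ∀ i, D.a (T i) ≠ 0)
    {c : List (Ed (Fin n) k)} (hc : IsChain (fun i => D.a (T i)) (fun i => D.b (T i)) c)
    (hg : GoodC c) (hz : (vec c).z ≠ 0) (hz' : (vec c).z' ≠ 0)
    (v : Fin n → k) (hv : ∀ i, OnX (D.b (T i)) (D.d (T i)) (zof c i) (v i)) :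
    FF ω θ (fun i => D.a (T i)) (fun i => D.d (T i)) (psT D Ψ T) (zof c) v = 0 := by
  have hψ : Fun (fun i => D.a (T i)) (fun i => D.b (T i)) (psT D Ψ T) := fun_psT D h hgT
  obtain ⟨hρ, hκ⟩ := rho_sq hc ha
  have hA0 : ∏ i, D.a (T i) ≠ 0 := Finset.prod_ne_zero_iff.mpr fun i _ => ha i
  have hf0 : FineC c := hg c Relation.ReflTransGen.refl
  have hzz := zz (mv1_fine hf0)
  rw [hκ] at hzz
  obtain ⟨B, hB, hgB⟩ := good_fam hg
  have hfin := bad_fin (V := vec c) hA0 hρ hz hz' hzz hB
  set B₂ : Set k := {x : k | x = 0 ∨ ∃ μ y, μ ≠ 0 ∧ μ ^ 6 = ((vec c).tor x).N ∧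
    Four ((vec c).tor x) (rho (fun i => D.a (T i)) c) μ y ∧ x * y ∈ B} with hB₂
  -- vanishing for almost all members of the family
  have key : ∀ x, x ∉ B ∪ B₂ → FineC (fam c x) ∧ ∀ v : Fin n → k,
      (∀ i, OnX (D.b (T i)) (D.d (T i)) (zof (fam c x) i) (v i)) →
      FF ω θ (fun i => D.a (T i)) (fun i => D.d (T i)) (psT D Ψ T) (zof (fam c x)) v = 0 := by
    intro x hx
    rw [Set.mem_union, not_or] at hx
    have hx0 : x ≠ 0 := fun h0 => hx.2 (Or.inl h0)
    have hgx : GoodC (fam c x) := hgB x hx.1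
    have hfx : FineC (fam c x) := hgx _ Relation.ReflTransGen.refl
    have hvx : vec (fam c x) = (vec c).tor x := vec_fam hf0 hx0 hfx
    refine ⟨hfx, fun v hv => ?_⟩
    refine ff_four hω h1 hn h hgT ha (mv1_chain hc x) hgx ?_ ?_ ?_ v hv
    · rw [hvx, VN.tor_z]
      exact mul_ne_zero hx0 hz
    · rw [hvx, VN.tor_z']
      exact div_ne_zero hz' hx0
    · intro μ hμ hN y hy
      have hr : rho (fun i => D.a (T i)) (fam c x) = rho (fun i => D.a (T i)) c := by
        unfold rho
        rw [mv1_kap]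
      rw [hvx] at hN hy
      rw [hr] at hy
      have hxy : x * y ∉ B := fun h0 => hx.2 (Or.inr ⟨μ, y, hμ, hN, hy, h0⟩)
      have hgxy : GoodC (fam c (x * y)) := hgB _ hxy
      rw [fam_fam hf0 hfx (hgxy _ Relation.ReflTransGen.refl)]
      exact hgxy
  -- the line
  have hK : IsFunctionField k (RatFunc k) := ff_ratFunc
  have htr : Transcendental k (RatFunc.X : RatFunc k) := transcendental_ratX
  have htr1 : Transcendental k ((RatFunc.X : RatFunc k) - 1) := by
    intro halg
    apply htr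
    have h2 := halg.add (isAlgebraic_one (R := k) (A := RatFunc k))
    rwa [sub_add_cancel] at h2
  obtain ⟨w₀, hw₀⟩ := exists_place hK htr1
  have hX1 : IsRes w₀ (RatFunc.X : RatFunc k) (1 : k) := by
    unfold IsRes
    rw [map_one]
    exact hw₀
  set cK : List (Ed (Fin n) (RatFunc k)) := c.map (Ed.map (algebraMap k (RatFunc k))) with hcK
  have hiK : (cK.map fun e => e.i) = c.map fun e => e.i := by
    rw [hcK, List.map_map]
    rfl
  have hlab : ∀ (y : RatFunc k) (x : k), ((fam cK y).map fun e => e.i) =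
      (fam c x).map fun e => e.i := by
    intro y x
    rw [mv1_i, mv1_i, hiK]
  have hc1 : fam c 1 = c := fam_one hf0
  have hz0 : ∀ i, IsRes w₀ (zof (fam cK (RatFunc.X : RatFunc k)) i) (zof c i) := by
    intro i
    have e1 := fam_res hK w₀ (mv1_res_map w₀ c) hX1 hf0 (by rw [hc1]; exact hf0)
    have e2 := mv1_res_zof e1 (hlab _ _) i
    rwa [hc1] at e2
  refine VN.ff_app hω hψ hK (fun i => zof (fam cK (RatFunc.X : RatFunc k)) i) w₀ (zof c) hz0
    (fin_pl hK htr (hB.union hfin)) ?_ v hv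
  intro w hw ζ hζ v' hv'
  rw [Set.mem_setOf_eq, not_or, not_not] at hw
  obtain ⟨hwX, hwB⟩ := hw
  obtain ⟨x, hx⟩ := exists_res hK hwX
  have hxB : x ∉ B ∪ B₂ := fun h0 => hwB ⟨x, h0, hx⟩
  obtain ⟨hfx, hkx⟩ := key x hxB
  have e1 := fam_res hK w (mv1_res_map w c) hx hf0 hfx
  have e2 : ζ = zof (fam c x) := by
    funext i
    exact (hζ i).unique (mv1_res_zof e1 (hlab _ _) i)
  rw [e2] at hv' ⊢
  exact hkx v' hv'

end Pool.Agent.Helper83.CHA

end CX
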