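import Mathlib
import Pool.Agent.Helper40.CX.CHI.Defs

/-!
# Additive base change of Weierstrass models in characteristic `p`

`pullA W p` is the Weierstrass equation obtained from `W` by the base change `u = w ^ p - w`, and
`rotA` is the automorphism `w ↦ w + 1` of it, `(u0 : u1; x : y : z) ↦ (u0 + u1 : u1; x : y : z)`.
-/

set_option autoImplicit false
set_option linter.unusedSectionVars false

namespace CX.CHA

open CX.VC CX.VF Function Polynomial
open CX.Pool.Agent.Helper51.EW (Wei Coord WPt)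

universe u

section

variable {k : Type u} [Field k] (p : ℕ)

/-- The map `(u0, u1) ↦ (u0 ^ p - u0 u1 ^ (p - 1), u1 ^ p)`. -/
def asv {K : Type u} [Field K] (u : Fin 2 → K) : Fin 2 → K :=
  ![u 0 ^ p - u 0 * u 1 ^ (p - 1), u 1 ^ p]

/-- The forms `u0 ^ p - u0 u1 ^ (p - 1), u1 ^ p`. -/
noncomputable def asf (k : Type u) [Field k] : Fin 2 → MvPolynomial (Fin 2) k :=
  ![MvPolynomial.X 0 ^ p - MvPolynomial.X 0 * MvPolynomial.X 1 ^ (p - 1), MvPolynomial.X 1 ^ p]

variable {p}

theorem asf_hom (hp : p ≠ 0) (i : Fin 2) : (asf p k i).IsHomogeneous p := by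
  fin_cases i
  · change (MvPolynomial.X 0 ^ p - MvPolynomial.X 0 * MvPolynomial.X 1 ^ (p - 1) :
      MvPolynomial (Fin 2) k).IsHomogeneous p
    have h1 := (MvPolynomial.isHomogeneous_X k (0 : Fin 2)).pow p
    have h2 := (MvPolynomial.isHomogeneous_X k (0 : Fin 2)).mul
      ((MvPolynomial.isHomogeneous_X k (1 : Fin 2)).pow (p - 1))
    rw [one_mul] at h1
    rw [one_mul, show 1 + (p - 1) = p by omega] at h2
    exact h1.sub h2
  · change (MvPolynomial.X 1 ^ p : MvPolynomial (Fin 2) k).IsHomogeneous p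
    have h1 := (MvPolynomial.isHomogeneous_X k (1 : Fin 2)).pow p
    rwa [one_mul] at h1

theorem bind_hom (hp : p ≠ 0) {F : MvPolynomial (Fin 2) k} {n : ℕ} (h : F.IsHomogeneous n) :
    (MvPolynomial.bind₁ (asf p k) F).IsHomogeneous (p * n) := by
  change (MvPolynomial.aeval (asf p k) F).IsHomogeneous (p * n)
  exact h.aeval _ (n := p) (asf_hom hp)

/-- The Weierstrass equation after the base change `u = w ^ p - w`. -/
noncomputable def pullA (W : Wei k) (p : ℕ) (hp : p ≠ 0) : Wei k where
  N := p * W.N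
  A := MvPolynomial.bind₁ (asf p k) W.A
  B := MvPolynomial.bind₁ (asf p k) W.B
  hA := by
    have h := bind_hom hp W.hA
    rwa [show p * (4 * W.N) = 4 * (p * W.N) by ring] at h
  hB := by
    have h := bind_hom hp W.hB
    rwa [show p * (6 * W.N) = 6 * (p * W.N) by ring] at h

theorem aeval_asf {K : Type u} [Field K] [Algebra k K] (F : MvPolynomial (Fin 2) k)
    (u : Fin 2 → K) :
    MvPolynomial.aeval u (MvPolynomial.bind₁ (asf p k) F) = MvPolynomial.aeval (asv p u) F := by
  rw [MvPolynomial.aeval_bind₁]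
  congr 2
  funext i
  fin_cases i
  · change MvPolynomial.aeval u (MvPolynomial.X 0 ^ p -
      MvPolynomial.X 0 * MvPolynomial.X 1 ^ (p - 1)) = u 0 ^ p - u 0 * u 1 ^ (p - 1)
    simp
  · change MvPolynomial.aeval u (MvPolynomial.X 1 ^ p) = u 1 ^ p
    simp

/-- The translation of the coordinate. -/
def trv {K : Type u} [Field K] (u : Fin 2 → K) : Fin 2 → K := ![u 0 + u 1, u 1]

theorem asv_trv {K : Type u} [Field K] [hp : Fact p.Prime] [CharP K p] (u : Fin 2 → K) :
    asv p (trv u) = asv p u := by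
  funext i
  fin_cases i
  · change (u 0 + u 1) ^ p - (u 0 + u 1) * u 1 ^ (p - 1) = u 0 ^ p - u 0 * u 1 ^ (p - 1)
    rw [add_pow_char]
    have h1 : u 1 * u 1 ^ (p - 1) = u 1 ^ p := by
      rw [← pow_succ', Nat.sub_add_cancel hp.out.one_le]
    linear_combination -h1
  · rfl

variable {W : Wei k} {hp : p ≠ 0} {K : Type u} [Field K] [Algebra k K]

/-- The automorphism on coordinates. -/
noncomputable def rotAC [Fact p.Prime] [CharP k p] (a : Coord (pullA W p hp) K) :
    Coord (pullA W p hp) K where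
  u := trv a.u
  w := a.w
  u_ne := by
    intro h
    have h0 : a.u 0 + a.u 1 = 0 := congrFun h 0
    have h1 : a.u 1 = 0 := congrFun h 1
    apply a.u_ne
    funext i
    fin_cases i
    · change a.u 0 = 0
      rw [h1, add_zero] at h0
      exact h0
    · exact h1
  w_ne := a.w_ne
  eqn := by
    have hc : CharP K p := charP_of_injective_algebraMap (algebraMap k K).injective p
    have h := a.eqn
    change a.w 1 ^ 2 * a.w 2 = a.w 0 ^ 3 +
      MvPolynomial.aeval a.u (MvPolynomial.bind₁ (asf p k) W.A) * a.w 0 * a.w 2 ^ 2 +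
      MvPolynomial.aeval a.u (MvPolynomial.bind₁ (asf p k) W.B) * a.w 2 ^ 3 at h
    change a.w 1 ^ 2 * a.w 2 = a.w 0 ^ 3 +
      MvPolynomial.aeval (trv a.u) (MvPolynomial.bind₁ (asf p k) W.A) * a.w 0 * a.w 2 ^ 2 +
      MvPolynomial.aeval (trv a.u) (MvPolynomial.bind₁ (asf p k) W.B) * a.w 2 ^ 3
    rw [aeval_asf, aeval_asf] at h ⊢
    rw [asv_trv]
    exact h

/-- The automorphism `(u0 : u1; x : y : z) ↦ (u0 + u1 : u1; x : y : z)`. -/
noncomputable def rotA [Fact p.Prime] [CharP k p] (q : WPt (pullA W p hp) K) :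
    WPt (pullA W p hp) K :=
  Quotient.map rotAC (by
    rintro a b ⟨l, c, hl, hc, h1, h2⟩
    refine ⟨l, c, hl, hc, fun i => ?_, h2⟩
    fin_cases i
    · change b.u 0 + b.u 1 = l * (a.u 0 + a.u 1)
      rw [h1 0, h1 1]; ring
    · exact h1 1) q

theorem rotA_mk [Fact p.Prime] [CharP k p] (a : Coord (pullA W p hp) K) :
    rotA (WPt.mk a) = WPt.mk (rotAC a) := rfl

end

/-- An element of a field of characteristic `p` with `d ^ p = d` is a natural number. -/
theorem exists_nat {F : Type*} [Field F] {p : ℕ} [hp : Fact p.Prime] [CharP F p] {d : F}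
    (h : d ^ p = d) : ∃ e : ℕ, (e : F) = d := by
  classical
  by_contra hcon
  push Not at hcon
  have h1 : (X ^ p - X : F[X]) ≠ 0 := FiniteField.X_pow_card_sub_X_ne_zero F hp.out.one_lt
  have h2 : (X ^ p - X : F[X]).natDegree = p :=
    FiniteField.X_pow_card_sub_X_natDegree_eq F hp.out.one_lt
  let S : Finset F := (Finset.range p).image (fun e : ℕ => (e : F))
  have hS : S.card = p := by
    rw [Finset.card_image_of_injOn, Finset.card_range]
    intro a ha b hb hab
    rw [Finset.coe_range, Set.mem_Iio] at ha hb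
    exact CharP.natCast_injOn_Iio F p ha hb hab
  have h3 : insert d S ⊆ (X ^ p - X : F[X]).roots.toFinset := by
    intro z hz
    rw [Multiset.mem_toFinset, mem_roots h1, IsRoot.def, eval_sub, eval_pow, eval_X, sub_eq_zero]
    rcases Finset.mem_insert.mp hz with rfl | hz
    · exact h
    · obtain ⟨e, -, rfl⟩ := Finset.mem_image.mp hz
      have h0 := map_natCast (frobenius F p) e
      rwa [frobenius_def] at h0
  have h4 : d ∉ S := by
    intro hd
    obtain ⟨e, -, he⟩ := Finset.mem_image.mp hd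
    exact hcon e he
  have h5 := Finset.card_le_card h3
  rw [Finset.card_insert_of_notMem h4, hS] at h5
  have h6 := (Multiset.toFinset_card_le (X ^ p - X : F[X]).roots).trans (card_roots' _)
  rw [h2] at h6
  omega

end CX.CHA
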