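import Mathlib
import Pool.Agent.Helper98.CHA.Def
import Pool.Agent.Helper98.CHI.Down
import Pool.Agent.Helper40.CX.H83QF.Phi

/-!
# CHA: the projection of the additive base change, and lifts with fixed sum

`downA` is the morphism `(u0 : u1; x : y : z) ↦ (u0 ^ p - u0 u1 ^ (p - 1) : u1 ^ p; x : y : z)` from
the surface `pullA W p` to `W`. `Rel` : `q` is a lift of `r` such that the sum of the coordinates
`u0 / u1` is `w0`.
-/

set_option autoImplicit false
set_option linter.unusedSectionVars false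

namespace CX.CHA

open CX.VC CX.VF Function
open CX.Pool.Agent.Helper51.EW
open CX.CHI (eig_iter)

universe u

section down

variable {k : Type u} [Field k] {W : Wei k} {p : ℕ} {hp : p ≠ 0} {K : Type u} [Field K]
  [Algebra k K]

theorem asv_ne [hpp : Fact p.Prime] {u : Fin 2 → K} (h : u ≠ 0) : asv p u ≠ 0 := by
  intro h0
  apply h
  have hp := hpp.out.ne_zero
  have h1 : u 1 ^ p = 0 := congrFun h0 1
  have h2 : u 1 = 0 := (pow_eq_zero_iff hp).mp h1
  have h3 : u 0 ^ p - u 0 * u 1 ^ (p - 1) = 0 := congrFun h0 0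
  have hp2 := hpp.out.two_le
  rw [h2, zero_pow (by omega), mul_zero, sub_zero] at h3
  funext i
  fin_cases i
  · exact (pow_eq_zero_iff hp).mp h3
  · exact h2

theorem asv_smul [hpp : Fact p.Prime] (l : K) {u v : Fin 2 → K} (h : ∀ i, v i = l * u i)
    (i : Fin 2) : asv p v i = l ^ p * asv p u i := by
  have hp2 := hpp.out.one_le
  fin_cases i
  · change v 0 ^ p - v 0 * v 1 ^ (p - 1) = l ^ p * (u 0 ^ p - u 0 * u 1 ^ (p - 1))
    rw [h 0, h 1]
    have h1 : l * l ^ (p - 1) = l ^ p := by rw [← pow_succ', Nat.sub_add_cancel hp2]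
    rw [mul_pow, mul_pow, ← h1]
    ring
  · change v 1 ^ p = l ^ p * u 1 ^ p
    rw [h 1, mul_pow]

/-- The morphism `(u0 : u1; x : y : z) ↦ (u0 ^ p - u0 u1 ^ (p - 1) : u1 ^ p; x : y : z)`. -/
def downA [Fact p.Prime] (a : Coord (pullA W p hp) K) : Coord W K where
  u := asv p a.u
  w := a.w
  u_ne := asv_ne a.u_ne
  w_ne := a.w_ne
  eqn := by
    have h := a.eqn
    change a.w 1 ^ 2 * a.w 2 = a.w 0 ^ 3 +
      MvPolynomial.aeval a.u (MvPolynomial.bind₁ (asf p k) W.A) * a.w 0 * a.w 2 ^ 2 +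
      MvPolynomial.aeval a.u (MvPolynomial.bind₁ (asf p k) W.B) * a.w 2 ^ 3 at h
    rw [aeval_asf, aeval_asf] at h
    exact h

theorem wt_pullA (i : Fin 3) : wt (pullA W p hp).N i = p * wt W.N i := by
  fin_cases i
  · change 2 * (p * W.N) = p * (2 * W.N)
    ring
  · change 3 * (p * W.N) = p * (3 * W.N)
    ring
  · rfl

theorem same_down [Fact p.Prime] {a b : Coord (pullA W p hp) K} (h : Same a b) :
    Same (downA a) (downA b) := by
  obtain ⟨l, c, hl, hc, h1, h2⟩ := h
  refine ⟨l ^ p, c, pow_ne_zero p hl, hc, fun i => asv_smul l h1 i, fun i => ?_⟩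
  change b.w i = (l ^ p) ^ wt W.N i * c * a.w i
  rw [h2, wt_pullA, pow_mul]

theorem mk_down [Fact p.Prime] {a b : Coord (pullA W p hp) K} (h : WPt.mk a = WPt.mk b) :
    (WPt.mk (downA a) : WPt W K) = WPt.mk (downA b) :=
  mk_eq_iff.mpr (same_down (mk_eq_iff.mp h))

theorem down_neg [Fact p.Prime] (a : Coord (pullA W p hp) K) :
    downA (negC a) = negC (downA a) := rfl

theorem rot_iter [Fact p.Prime] [CharP k p] (e : ℕ) (a : Coord (pullA W p hp) K) :
    ∃ b : Coord (pullA W p hp) K, rotA^[e] (WPt.mk a) = WPt.mk b ∧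
      b.u 0 = a.u 0 + e * a.u 1 ∧ b.u 1 = a.u 1 ∧ b.w = a.w := by
  induction e with
  | zero => exact ⟨a, rfl, by rw [Nat.cast_zero, zero_mul, add_zero], rfl, rfl⟩
  | succ e ih =>
    obtain ⟨b, h1, h2, h3, h4⟩ := ih
    refine ⟨rotAC b, ?_, ?_, h3, h4⟩
    · rw [iterate_succ_apply', h1, rotA_mk]
    · change b.u 0 + b.u 1 = _
      rw [h2, h3]
      push_cast
      ring

theorem mk_congr {a b : Coord (pullA W p hp) K} {c : K} (hc : c ≠ 0) (h0 : b.u 0 = a.u 0)
    (h1 : b.u 1 = a.u 1) (h2 : ∀ i, b.w i = c * a.w i) : WPt.mk a = WPt.mk b := by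
  refine mk_eq_iff.mpr ⟨1, c, one_ne_zero, hc, fun i => ?_, fun i => ?_⟩
  · rw [one_mul]
    fin_cases i
    · exact h0
    · exact h1
  · rw [one_pow, one_mul]
    exact h2 i

theorem rot_period [Fact p.Prime] [CharP k p] (q : WPt (pullA W p hp) K) : rotA^[p] q = q := by
  have hc : CharP K p := charP_of_injective_algebraMap (algebraMap k K).injective p
  obtain ⟨a, rfl⟩ := exists_mk q
  obtain ⟨b, h1, h2, h3, h4⟩ := rot_iter p a
  rw [h1]
  refine (mk_congr one_ne_zero ?_ h3 (fun i => ?_)).symm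
  · rw [h2, CharP.cast_eq_zero K p, zero_mul, add_zero]
  · rw [one_mul, h4]

/-- The translation fixes the points over infinity. -/
theorem rot_fix [Fact p.Prime] [CharP k p] {a : Coord (pullA W p hp) K} (h : a.u 1 = 0) :
    rotA (WPt.mk a) = WPt.mk a := by
  rw [rotA_mk]
  refine (mk_congr (a := a) (b := rotAC a) one_ne_zero ?_ rfl
    (fun i => (one_mul (a.w i)).symm)).symm
  change a.u 0 + a.u 1 = a.u 0
  rw [h, add_zero]

theorem rotA_neg [Fact p.Prime] [CharP k p] (q : WPt (pullA W p hp) K) :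
    rotA (neg q) = neg (rotA q) := by
  obtain ⟨a, rfl⟩ := exists_mk q
  rw [neg_mk, rotA_mk, rotA_mk, neg_mk]
  rfl

end down

section lifts

variable {k : Type u} [Field k] {W : Wei k} {p n : ℕ} {hp : p ≠ 0} [Fact p.Prime]

/-- `q` is a lift of `r` to the base change, and the sum of the coordinates is `w0`. -/
def Rel (w0 : k) (r : Fin n → WPt W k) (q : Fin n → WPt (pullA W p hp) k) : Prop :=
  ∃ a : Fin n → Coord (pullA W p hp) k, (∀ i, (a i).u 1 = 1) ∧ (∑ i, (a i).u 0 = w0) ∧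
    (∀ i, q i = WPt.mk (a i)) ∧ ∀ i, r i = WPt.mk (downA (a i))

variable [CharP k p]

theorem rel_unique {w0 : k} {r : Fin n → WPt W k} {q q' : Fin n → WPt (pullA W p hp) k}
    (h : Rel w0 r q) (h' : Rel w0 r q') :
    ∃ e : Fin n → ℕ, p ∣ ∑ i, e i ∧ ∀ i, q' i = rotA^[e i] (q i) := by
  obtain ⟨a, h1, h2, h3, h4⟩ := h
  obtain ⟨a', h1', h2', h3', h4'⟩ := h'
  have key : ∀ i, ∃ e : ℕ, (a i).u 0 + e = (a' i).u 0 ∧ q' i = rotA^[e] (q i) := by
    intro i
    have e1 : (WPt.mk (downA (a i)) : WPt W k) = WPt.mk (downA (a' i)) := by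
      rw [← h4, ← h4']
    obtain ⟨l, c, hl, hc, e2, e3⟩ := mk_eq_iff.mp e1
    have e4 : (a' i).u 1 ^ p = l * (a i).u 1 ^ p := e2 1
    rw [h1, h1', one_pow, mul_one] at e4
    have e5 : (a' i).u 0 ^ p - (a' i).u 0 * (a' i).u 1 ^ (p - 1) =
      l * ((a i).u 0 ^ p - (a i).u 0 * (a i).u 1 ^ (p - 1)) := e2 0
    rw [← e4, one_mul, h1, h1', one_pow, mul_one, mul_one] at e5
    have e6 : ((a' i).u 0 - (a i).u 0) ^ p = (a' i).u 0 - (a i).u 0 := by
      rw [sub_pow_char]
      linear_combination e5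
    obtain ⟨e, he⟩ := exists_nat e6
    have e7 : (a i).u 0 + e = (a' i).u 0 := by
      rw [he]
      ring
    refine ⟨e, e7, ?_⟩
    obtain ⟨b, f1, f2, f3, f4⟩ := rot_iter e (a i)
    rw [h3, h3', f1]
    refine (mk_congr hc ?_ ?_ (fun j => ?_)).symm
    · rw [f2, h1, mul_one]
      exact e7.symm
    · rw [f3, h1, h1']
    · rw [f4]
      have e8 : (a' i).w j = l ^ wt W.N j * c * (a i).w j := e3 j
      rw [e8, ← e4, one_pow, one_mul]
  choose e he hq using key
  refine ⟨e, ?_, hq⟩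
  rw [← CharP.cast_eq_zero_iff k p]
  have e1 : (∑ i, (a i).u 0) + ((∑ i, e i : ℕ) : k) = ∑ i, (a' i).u 0 := by
    push_cast
    rw [← Finset.sum_add_distrib]
    exact Finset.sum_congr rfl fun i _ => he i
  rw [h2, h2'] at e1
  linear_combination e1

theorem eig_dvd {r : WPt (pullA W p hp) k → WPt (pullA W p hp) k} (hr : ∀ q, r^[p] q = q)
    {Ψ : (Fin n → WPt (pullA W p hp) k) → ℂ} {χ : ℂ}
    (hs : ∀ (q : Fin n → WPt (pullA W p hp) k) (i : Fin n),
      Ψ (update q i (r (q i))) = χ * Ψ q)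
    {e : Fin n → ℕ} (he : p ∣ ∑ i, e i) (q : Fin n → WPt (pullA W p hp) k) :
    Ψ (fun i => r^[e i] (q i)) = Ψ q := by
  rw [eig_iter hs]
  rcases Nat.eq_zero_or_pos n with hn | hn
  · subst hn
    simp
  · obtain ⟨t, ht⟩ := he
    have h1 : ∀ q, χ ^ p * Ψ q = Ψ q := by
      intro q
      have h2 := eig_iter hs (Pi.single ⟨0, hn⟩ p) q
      have h3 : (fun i => r^[(Pi.single (⟨0, hn⟩ : Fin n) p : Fin n → ℕ) i] (q i)) = q := by
        funext i
        by_cases hi : i = ⟨0, hn⟩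
        · rw [hi, Pi.single_eq_same, hr]
        · rw [Pi.single_eq_of_ne hi]
          rfl
      rw [h3, Finset.sum_pi_single'] at h2
      simpa using h2.symm
    rw [ht, pow_mul]
    clear ht
    induction t with
    | zero => rw [pow_zero, one_mul]
    | succ t ih => rw [pow_succ, mul_assoc, h1, ih]

open Classical in
/-- The function on the power of the surface over the `u`-line: the value at any lift with sum
of the coordinates `w0`, and zero if there is no such lift. -/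
noncomputable def phi (w0 : k) (Ψ : (Fin n → WPt (pullA W p hp) k) → ℂ)
    (r : Fin n → WPt W k) : ℂ :=
  if h : ∃ q : Fin n → WPt (pullA W p hp) k, Rel w0 r q then Ψ h.choose else 0

theorem phi_eq {w0 : k} {Ψ : (Fin n → WPt (pullA W p hp) k) → ℂ} {χ : ℂ}
    (hs : ∀ (q : Fin n → WPt (pullA W p hp) k) (i : Fin n),
      Ψ (update q i (rotA (q i))) = χ * Ψ q)
    {r : Fin n → WPt W k} {q : Fin n → WPt (pullA W p hp) k} (h : Rel w0 r q) :
    phi w0 Ψ r = Ψ q := by
  have hex : ∃ q : Fin n → WPt (pullA W p hp) k, Rel w0 r q := ⟨q, h⟩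
  unfold phi
  rw [dif_pos hex]
  obtain ⟨e, he, hq⟩ := rel_unique h hex.choose_spec
  have h1 : hex.choose = fun i => rotA^[e i] (q i) := funext hq
  rw [h1]
  exact eig_dvd rot_period hs he q

theorem phi_zero {w0 : k} {Ψ : (Fin n → WPt (pullA W p hp) k) → ℂ}
    {r : Fin n → WPt W k} (h : ¬ ∃ q : Fin n → WPt (pullA W p hp) k, Rel w0 r q) :
    phi w0 Ψ r = 0 := by
  unfold phi
  rw [dif_neg h]

omit [CharP k p] in
theorem rel_neg {w0 : k} {r : Fin n → WPt W k} {q : Fin n → WPt (pullA W p hp) k}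
    (h : Rel w0 r q) (i : Fin n) :
    Rel w0 (update r i (neg (r i))) (update q i (neg (q i))) := by
  obtain ⟨a, h1, h2, h3, h4⟩ := h
  have e1 : ∀ j, (update a i (negC (a i)) j).u = (a j).u := by
    intro j
    by_cases hj : j = i
    · subst hj
      rw [update_self]
      rfl
    · rw [update_of_ne hj]
  refine ⟨update a i (negC (a i)), fun j => ?_, ?_, fun j => ?_, fun j => ?_⟩
  · rw [e1]
    exact h1 j
  · simp only [e1]
    exact h2
  · by_cases hj : j = i
    · subst hj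
      rw [update_self, update_self, h3, neg_mk]
    · rw [update_of_ne hj, update_of_ne hj, h3]
  · by_cases hj : j = i
    · subst hj
      rw [update_self, update_self, h4, neg_mk, down_neg]
    · rw [update_of_ne hj, update_of_ne hj, h4]

omit [CharP k p] in
theorem rel_swap {w0 : k} {r : Fin n → WPt W k} {q : Fin n → WPt (pullA W p hp) k}
    (h : Rel w0 r q) (σ : Equiv.Perm (Fin n)) :
    Rel w0 (fun l => r (σ l)) (fun l => q (σ l)) := by
  obtain ⟨a, h1, h2, h3, h4⟩ := h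
  refine ⟨fun l => a (σ l), fun j => h1 _, ?_, fun j => h3 _, fun j => h4 _⟩
  rw [← h2]
  exact Equiv.sum_comp σ (fun l => (a l).u 0)

end lifts

end CX.CHA
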