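import Mathlib
import Pool.Agent.Helper98.CHA.Down
import Pool.Agent.Helper98.CHA.Std

/-!
# CHA: the function over the `u`-line, additive version

`phi` kills the curves on which the sum of the coordinates of the base is constant: such a curve
lifts to the base change over the field generated by the roots of `X ^ p - X = t i`.
-/

set_option autoImplicit false
set_option linter.unusedSectionVars false

namespace CX.CHA

open CX.VC CX.VF Function
open CX.Pool.Agent.Helper51.EW CX.Pool.Agent.Helper51.VN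
open CX.Pool.Agent.Helper83.CHA (Cor OddC IsStd Prc)

universe u

section std

variable {k : Type u} [Field k] {W : Wei k} {p : ℕ} {hp : p ≠ 0} {K : Type u} [Field K]
  [Algebra k K]

theorem cor_base_ne (D : Cor W) (T : K) : D.base T ≠ 0 := by
  intro h
  have h0 : algebraMap k K (D.e0 0) + T * algebraMap k K (D.e1 0) = 0 := congrFun h 0
  have h1 : algebraMap k K (D.e0 1) + T * algebraMap k K (D.e1 1) = 0 := congrFun h 1
  apply D.det
  apply (algebraMap k K).injective
  rw [map_sub, map_mul, map_mul, map_zero]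
  linear_combination algebraMap k K (D.e1 1) * h0 - algebraMap k K (D.e1 0) * h1

theorem cor_base_eqn (D : Cor W) {T x y : K} (h : OnE (D.a T) (D.b T) x y) :
    y ^ 2 = x ^ 3 + MvPolynomial.aeval (D.base T) W.A * x + MvPolynomial.aeval (D.base T) W.B := by
  have e1 : MvPolynomial.aeval (D.base T) W.A = -3 * D.a T := D.hA K T
  have e2 : MvPolynomial.aeval (D.base T) W.B = -2 * D.b T := D.hB K T
  unfold OnE at h
  rw [h, e1, e2]
  ring

theorem pt_mk (D : Cor W) {T x y : K} (h : OnE (D.a T) (D.b T) x y) :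
    D.pt T x y = WPt.mk (affC (D.base T) x y (cor_base_ne D T) (cor_base_eqn D h)) :=
  apt_eq (cor_base_ne D T) (cor_base_eqn D h)

variable [Good k]

theorem onE_std {D : Cor W} (hD : IsStd D) {D' : Cor (pullA W p hp)} (hD' : IsStd D') {T x y : K} :
    OnE (D'.a T) (D'.b T) x y ↔ OnE (D.a (T ^ p - T)) (D.b (T ^ p - T)) x y := by
  rw [CX.Pool.Agent.Helper83.CHA.std_a hD hD', CX.Pool.Agent.Helper83.CHA.std_b hD hD']

/-- The projection of an affine point. -/
theorem down_pt [Fact p.Prime] {D : Cor W} (hD : IsStd D) {D' : Cor (pullA W p hp)}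
    (hD' : IsStd D') {T x y : K} (h : OnE (D'.a T) (D'.b T) x y) :
    D.pt (T ^ p - T) x y =
      WPt.mk (downA (affC (D'.base T) x y (cor_base_ne D' T) (cor_base_eqn D' h))) := by
  rw [pt_mk D ((onE_std hD hD').mp h)]
  refine mk_eq_iff.mpr ⟨1, 1, one_ne_zero, one_ne_zero, fun i => ?_, fun i => ?_⟩
  · change asv p (D'.base T) i = 1 * D.base (T ^ p - T) i
    rw [hD.base, hD'.base, one_mul, CX.Pool.Agent.Helper83.CHA.std_as]
  · rw [one_pow, one_mul, one_mul]
    rfl

end std

section main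

variable {k : Type u} [Field k] [IsAlgClosed k] [Good k] {W : Wei k} {p n : ℕ} {hp : p ≠ 0}
  [Fact p.Prime] [CharP k p]

/-- An eigenfunction vanishes if a component lies over infinity. -/
theorem psi_fix {Ψ : (Fin n → WPt (pullA W p hp) k) → ℂ} {χ : ℂ} (hχ : χ ≠ 1)
    (hs : ∀ (q : Fin n → WPt (pullA W p hp) k) (i : Fin n),
      Ψ (update q i (rotA (q i))) = χ * Ψ q)
    {q : Fin n → WPt (pullA W p hp) k} {i : Fin n} {a : Coord (pullA W p hp) k}
    (hq : q i = WPt.mk a) (h : a.u 1 = 0) : Ψ q = 0 := by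
  have h1 := hs q i
  rw [hq, rot_fix h, ← hq, update_eq_self] at h1
  have h2 : (χ - 1) * Ψ q = 0 := by linear_combination -h1
  exact (mul_eq_zero.mp h2).resolve_left (sub_ne_zero.mpr hχ)

omit [CharP k p] in
/-- A tuple with a lift has no component over infinity. -/
theorem rel_ne {w0 : k} {r : Fin n → WPt W k}
    {q : Fin n → WPt (pullA W p hp) k} (h : Rel w0 r q) {i : Fin n} {a : Coord W k}
    (ha : r i = WPt.mk a) : a.u 1 ≠ 0 := by
  obtain ⟨b, h1, h2, h3, h4⟩ := h
  have e1 : (WPt.mk a : WPt W k) = WPt.mk (downA (b i)) := by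
    rw [← ha, h4]
  obtain ⟨l, c, hl, hc, e2, e3⟩ := mk_eq_iff.mp e1
  have f1 : (b i).u 1 ^ p = l * a.u 1 := e2 1
  intro h0
  rw [h0, mul_zero, h1, one_pow] at f1
  exact one_ne_zero f1

omit [Fact p.Prime] [CharP k p] in
/-- The coordinates of the value of an affine point of the base change at a place. -/
theorem val_coords {K : Type u} [Field K] [Algebra k K] (hK : IsFunctionField k K)
    {D' : Cor (pullA W p hp)} (hD' : IsStd D') {T x y : K} (h : OnE (D'.a T) (D'.b T) x y)
    (v : Place k K) : ∃ (a : Coord (pullA W p hp) K) (b : Coord (pullA W p hp) k),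
      WPt.mk (affC (D'.base T) x y (cor_base_ne D' T) (cor_base_eqn D' h)) = WPt.mk a ∧
      (pullA W p hp).surface.eval hK (D'.pt T x y) v = WPt.mk b ∧
      (∀ i, IsRes v (a.u i) (b.u i)) ∧ (∀ i, IsRes v (a.w i) (b.w i)) ∧
      (b.u 1 ≠ 0 → IsRes v T (b.u 0 * (b.u 1)⁻¹)) := by
  obtain ⟨a, b, h1, h2, h3, h4⟩ := exists_coords hK v (D'.pt T x y)
  rw [pt_mk D' h] at h1
  refine ⟨a, b, h1, h2, h3, h4, fun hb => ?_⟩
  obtain ⟨l, c, hl, hc, e1, e2⟩ := mk_eq_iff.mp h1
  have f0 : a.u 0 = l * D'.base T 0 := e1 0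
  have f1 : a.u 1 = l * D'.base T 1 := e1 1
  rw [hD'.base] at f0 f1
  change a.u 0 = l * T at f0
  change a.u 1 = l * 1 at f1
  have e3 : T = a.u 0 * (a.u 1)⁻¹ := by
    rw [f0, f1]
    field_simp
  rw [e3]
  exact (h3 0).mul ((h3 1).inv hK hb)

omit [CharP k p] in
/-- The value of the projection of an affine point. -/
theorem val_down {K : Type u} [Field K] [Algebra k K] (hK : IsFunctionField k K)
    {D : Cor W} (hD : IsStd D) {D' : Cor (pullA W p hp)} (hD' : IsStd D') {T x y : K}
    (h : OnE (D'.a T) (D'.b T) x y) (v : Place k K) {b : Coord (pullA W p hp) k}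
    (hb : (pullA W p hp).surface.eval hK (D'.pt T x y) v = WPt.mk b) :
    W.surface.eval hK (D.pt (T ^ p - T) x y) v = WPt.mk (downA b) := by
  obtain ⟨a, b', h1, h2, h3, h4, -⟩ := val_coords hK hD' h v
  have h5 : ∀ i, IsRes v ((downA a).u i) ((downA b').u i) := by
    intro i
    fin_cases i
    · change IsRes v (a.u 0 ^ p - a.u 0 * a.u 1 ^ (p - 1)) (b'.u 0 ^ p - b'.u 0 * b'.u 1 ^ (p - 1))
      exact ((h3 0).pow p).sub ((h3 0).mul ((h3 1).pow (p - 1)))
    · exact (h3 1).pow p
  rw [down_pt hD hD' h, mk_down h1, eval_eq hK v (downA a) (downA b') h5 h4]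
  apply mk_down
  rw [← h2, hb]

/-- The value of `phi` at the value of a curve. -/
theorem phi_val {D : Cor W} (hD : IsStd D)
    {D' : Cor (pullA W p hp)} (hD' : IsStd D') {Ψ : (Fin n → WPt (pullA W p hp) k) → ℂ} {χ : ℂ}
    (hχ : χ ≠ 1)
    (hs : ∀ (q : Fin n → WPt (pullA W p hp) k) (i : Fin n),
      Ψ (update q i (rotA (q i))) = χ * Ψ q) {w0 : k}
    {K : Type u} [Field K] [Algebra k K] (hK : IsFunctionField k K) {T x y : Fin n → K}
    (h : ∀ i, OnE (D'.a (T i)) (D'.b (T i)) (x i) (y i)) (hT : ∑ i, T i = algebraMap k K w0)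
    (v : Place k K) :
    phi w0 Ψ (fun i => W.surface.eval hK (D.pt (T i ^ p - T i) (x i) (y i)) v) =
      Ψ (fun i => (pullA W p hp).surface.eval hK (D'.pt (T i) (x i) (y i)) v) := by
  choose a b h1 h2 h3 h4 h5 using fun i => val_coords hK hD' (h i) v
  have hdown : ∀ i, W.surface.eval hK (D.pt (T i ^ p - T i) (x i) (y i)) v =
      WPt.mk (downA (b i)) := fun i => val_down hK hD hD' (h i) v (h2 i)
  by_cases hgood : ∀ i, (b i).u 1 ≠ 0
  · apply phi_eq hs
    refine ⟨fun i => scale (b i) ((b i).u 1)⁻¹ 1 (inv_ne_zero (hgood i)) one_ne_zero,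
      fun i => ?_, ?_, fun i => ?_, fun i => ?_⟩
    · change ((b i).u 1)⁻¹ * (b i).u 1 = 1
      exact inv_mul_cancel₀ (hgood i)
    · change ∑ i, ((b i).u 1)⁻¹ * (b i).u 0 = w0
      have e1 : IsRes v (∑ i, T i) (∑ i, ((b i).u 0 * ((b i).u 1)⁻¹)) :=
        IsRes.sum Finset.univ fun i _ => h5 i (hgood i)
      rw [hT] at e1
      rw [(isRes_const (v := v) w0).unique e1]
      exact Finset.sum_congr rfl fun i _ => mul_comm _ _
    · rw [same_scale]
      exact h2 i
    · beta_reduce
      rw [hdown i]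
      exact mk_down (same_scale (b i) _ 1 (inv_ne_zero (hgood i)) one_ne_zero).symm
  · push Not at hgood
    obtain ⟨i, hi⟩ := hgood
    rw [psi_fix hχ hs (i := i) (h2 i) hi]
    apply phi_zero
    rintro ⟨q, hq⟩
    apply rel_ne hq (i := i) (hdown i)
    change (b i).u 1 ^ p = 0
    rw [hi, zero_pow hp]

end main

end CX.CHA
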