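import Mathlib
import Pool.Agent.Helper98.CHA.Phi

/-!
# CHA: the function over the `u`-line, additive version (final theorem)
-/

set_option autoImplicit false
set_option linter.unusedSectionVars false

namespace CX.CHA

open CX.VC CX.VF Function
open CX.Pool.Agent.Helper51.EW CX.Pool.Agent.Helper51.VN
open CX.Pool.Agent.Helper83.CHA (Cor OddC IsStd Prc)

universe u

variable {k : Type u} [Field k] [IsAlgClosed k] [Good k] {W : Wei k} {p n : ℕ} {hp : p ≠ 0}
  [hpp : Fact p.Prime] [CharP k p]

section ext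

variable {K L : Type u} [Field K] [Algebra k K] [Field L] [Algebra k L] [Algebra K L]
  [IsScalarTower k K L]

omit hpp [CharP k p] in
theorem cor_a_map (D : Cor W) (t : K) : D.a (algebraMap K L t) = algebraMap K L (D.a t) :=
  Polynomial.aeval_algebraMap_apply L t D.al

omit hpp [CharP k p] in
theorem cor_b_map (D : Cor W) (t : K) : D.b (algebraMap K L t) = algebraMap K L (D.b t) :=
  Polynomial.aeval_algebraMap_apply L t D.be

omit hpp [CharP k p] in
theorem onE_map (D : Cor W) {t x y : K} (h : OnE (D.a t) (D.b t) x y) :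
    OnE (D.a (algebraMap K L t)) (D.b (algebraMap K L t)) (algebraMap K L x)
      (algebraMap K L y) := by
  rw [cor_a_map, cor_b_map]
  unfold OnE at h ⊢
  have := congrArg (algebraMap K L) h
  simpa only [map_pow, map_sub, map_mul, map_ofNat] using this

omit hpp [CharP k p] in
theorem wmap_pt (D : Cor W) {t x y : K} (h : OnE (D.a t) (D.b t) x y) :
    CX.Pool.Agent.Helper83.QF.wmap (IsScalarTower.toAlgHom k K L) (D.pt t x y) =
      D.pt (algebraMap K L t) (algebraMap K L x) (algebraMap K L y) := by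
  rw [pt_mk D h, pt_mk D (onE_map (L := L) D h), CX.Pool.Agent.Helper83.QF.wmap_mk]
  refine mk_eq_iff.mpr ⟨1, 1, one_ne_zero, one_ne_zero, fun i => ?_, fun i => ?_⟩
  · rw [one_mul]
    change algebraMap k L (D.e0 i) + algebraMap K L t * algebraMap k L (D.e1 i) =
      algebraMap K L (algebraMap k K (D.e0 i) + t * algebraMap k K (D.e1 i))
    rw [map_add, map_mul, ← IsScalarTower.algebraMap_apply, ← IsScalarTower.algebraMap_apply]
  · rw [one_pow, one_mul, one_mul]
    fin_cases i
    · rfl
    · rfl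
    · exact (map_one (algebraMap K L)).symm

end ext

open Polynomial in
/-- A function field containing roots of `X ^ p - X - s i`. -/
theorem exists_asr {F : Type u} [Field F] [Algebra k F] (hF : IsFunctionField k F) (hp2 : 1 < p)
    (s : Fin n → F) :
    ∃ (K : Type u) (_ : Field K) (_ : Algebra k K) (_ : Algebra F K) (_ : IsScalarTower k F K)
      (y : Fin n → K), IsFunctionField k K ∧ ∀ i, y i ^ p - y i = algebraMap F K (s i) := by
  obtain ⟨K, _, _, _, _, hK, hs⟩ := exists_splits hF (∏ i, (X ^ p - X - C (s i)))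
  have hdeg : ∀ i, (X ^ p - X - C (s i) : F[X]).natDegree = p := by
    intro i
    rw [natDegree_sub_C, FiniteField.X_pow_card_sub_X_natDegree_eq F hp2]
  have hne : ∀ i, (X ^ p - X - C (s i) : F[X]) ≠ 0 := by
    intro i h0
    have := hdeg i
    rw [h0, natDegree_zero] at this
    omega
  have hroot : ∀ i, ∃ y : K, y ^ p - y = algebraMap F K (s i) := by
    intro i
    have h1 : ((X ^ p - X - C (s i) : F[X]).map (algebraMap F K)).Splits := by
      apply hs.of_dvd
      · rw [Ne, Polynomial.map_eq_zero]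
        exact Finset.prod_ne_zero_iff.mpr (fun i _ => hne i)
      · exact Polynomial.map_dvd _ (Finset.dvd_prod_of_mem _ (Finset.mem_univ i))
    obtain ⟨y, hy⟩ := h1.exists_eval_eq_zero (by
      rw [Polynomial.degree_map, degree_eq_natDegree (hne i), hdeg]
      intro h0
      have : p = 0 := by exact_mod_cast h0
      omega)
    refine ⟨y, ?_⟩
    simpa [sub_eq_zero] using hy
  choose y hy using hroot
  exact ⟨K, inferInstance, inferInstance, inferInstance, inferInstance, y, hK, hy⟩

theorem phi_gen {D : Cor W} (hD : IsStd D)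
    {D' : Cor (pullA W p hp)} (hD' : IsStd D') {Ψ : ((pullA W p hp).surface.pow n).Pt → ℂ}
    (hk : Kills ((pullA W p hp).surface.pow n) Ψ) {χ : ℂ} (hχ : χ ≠ 1)
    (hs : ∀ (q : Fin n → WPt (pullA W p hp) k) (i : Fin n),
      Ψ (update q i (rotA (q i))) = χ * Ψ q) {w0 : k}
    (K : Type u) [Field K] [Algebra k K] (hK : IsFunctionField k K) (t x y : Fin n → K)
    (hE : ∀ i, OnE (D.a (t i)) (D.b (t i)) (x i) (y i))
    (ht : ∑ i, t i = algebraMap k K (w0 ^ p - w0))
    (f : K) (hf : f ≠ 0) :
    ∑ w ∈ (finite_support_ord hK hf).toFinset, (ord w.ring f : ℂ) *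
      phi w0 Ψ ((W.surface.pow n).eval hK (fun i => D.pt (t i) (x i) (y i)) w) = 0 := by
  classical
  rcases Nat.eq_zero_or_pos n with hn | hn
  · subst hn
    by_cases hR : ∃ q : Fin 0 → WPt (pullA W p hp) k, Rel w0 (fun i : Fin 0 => (i.elim0 : WPt W k)) q
    · obtain ⟨q, hq⟩ := hR
      have h1 := hk.gen hK (fun i : Fin 0 => (i.elim0 : WPt (pullA W p hp) K)) hf
      rw [← h1]
      refine Finset.sum_congr rfl fun w _ => ?_
      congr 1
      have e1 : (W.surface.pow 0).eval hK (fun i => D.pt (t i) (x i) (y i)) w =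
          fun i : Fin 0 => (i.elim0 : WPt W k) := funext fun i => i.elim0
      have e2 : ((pullA W p hp).surface.pow 0).eval hK
          (fun i : Fin 0 => (i.elim0 : WPt (pullA W p hp) K)) w = q := funext fun i => i.elim0
      rw [e1, e2]
      exact phi_eq hs hq
    · apply Finset.sum_eq_zero
      intro w _
      have e1 : (W.surface.pow 0).eval hK (fun i => D.pt (t i) (x i) (y i)) w =
          fun i : Fin 0 => (i.elim0 : WPt W k) := funext fun i => i.elim0
      rw [e1, phi_zero hR, mul_zero]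
  · obtain ⟨L, _, _, _, _, τ, hL, hτ⟩ := exists_asr hK hpp.out.one_lt t
    have hcL : CharP L p := charP_of_injective_algebraMap (algebraMap k L).injective p
    have hd : ((∑ i, τ i) - algebraMap k L w0) ^ p = (∑ i, τ i) - algebraMap k L w0 := by
      have e1 : (∑ i, τ i) ^ p - ∑ i, τ i = algebraMap k L (w0 ^ p - w0) := by
        have e2 : (∑ i, τ i) ^ p = ∑ i, τ i ^ p := sum_pow_char p Finset.univ τ
        rw [e2, ← Finset.sum_sub_distrib, Finset.sum_congr rfl fun i _ => hτ i, ← map_sum, ht,
          ← IsScalarTower.algebraMap_apply]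
      rw [map_sub, map_pow] at e1
      rw [sub_pow_char]
      linear_combination e1
    obtain ⟨e, he⟩ := exists_nat hd
    obtain ⟨T, hTdef⟩ : ∃ T : Fin n → L, T = update τ ⟨0, hn⟩ (τ ⟨0, hn⟩ - (e : L)) := ⟨_, rfl⟩
    have hecast : ((e : L)) ^ p = (e : L) := by
      have h0 := map_natCast (frobenius L p) e
      rwa [frobenius_def] at h0
    have hTm : ∀ i, T i ^ p - T i = algebraMap K L (t i) := by
      intro i
      rw [hTdef]
      by_cases hi : i = ⟨0, hn⟩
      · subst hi
        rw [update_self, sub_pow_char, hecast, ← hτ]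
        ring
      · rw [update_of_ne hi, hτ]
    have hTp : ∑ i, T i = algebraMap k L w0 := by
      rw [hTdef, Finset.sum_update_of_mem (Finset.mem_univ _)]
      have h1 : τ ⟨0, hn⟩ + ∑ i ∈ Finset.univ \ {(⟨0, hn⟩ : Fin n)}, τ i = ∑ i, τ i := by
        rw [← Finset.sum_update_of_mem (Finset.mem_univ _), update_eq_self]
      linear_combination h1 - he
    have hE' : ∀ i, OnE (D'.a (T i)) (D'.b (T i)) (algebraMap K L (x i)) (algebraMap K L (y i)) := by
      intro i
      rw [onE_std hD hD', hTm]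
      exact onE_map D (hE i)
    have hf' : algebraMap K L f ≠ 0 := by
      rw [Ne, _root_.map_eq_zero]
      exact hf
    have h1 := hk.gen hL (fun i => D'.pt (T i) (algebraMap K L (x i)) (algebraMap K L (y i))) hf'
    refine CX.Pool.Agent.Helper83.QF.kills_res hK hL (fun v => phi w0 Ψ
      ((W.surface.pow n).eval hK (fun i => D.pt (t i) (x i) (y i)) v)) hf hf' ?_
    rw [← h1]
    refine Finset.sum_congr rfl fun w _ => ?_
    congr 1
    have h2 := phi_val hD hD' hχ hs hL hE' hTp w
    change phi w0 Ψ (fun i => W.surface.eval hK (D.pt (t i) (x i) (y i)) (VQ.res hK hL w)) =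
      Ψ (fun i => (pullA W p hp).surface.eval hL
        (D'.pt (T i) (algebraMap K L (x i)) (algebraMap K L (y i))) w)
    rw [← h2]
    congr 1
    funext i
    rw [← CX.Pool.Agent.Helper83.QF.wmap_eval hK hL, wmap_pt D (hE i), hTm]

theorem exists_phi {D : Cor W} (hD : IsStd D) {D' : Cor (pullA W p hp)} (hD' : IsStd D')
    {Psi : ((pullA W p hp).surface.pow n).Pt → ℂ} (h : Odd (pullA W p hp) n Psi) {chi : ℂ}
    (hchi : chi ≠ 1)
    (hs : ∀ (q : ((pullA W p hp).surface.pow n).Pt) (i : Fin n),
      Psi (update q i (rotA (q i))) = chi * Psi q) (w0 : k) :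
    ∃ Phi : (W.surface.pow n).Pt → ℂ, OddC D n (w0 ^ p - w0) Phi ∧
      ∀ w x y : Fin n → k, (∀ i, OnE (D'.a (w i)) (D'.b (w i)) (x i) (y i)) → ∑ i, w i = w0 →
        Phi (fun i => D.pt (w i ^ p - w i) (x i) (y i)) = Psi (fun i => D'.pt (w i) (x i) (y i)) := by
  classical
  refine ⟨phi w0 Psi, ⟨?_, ?_, ?_, ?_, ?_⟩, ?_⟩
  · intro K _ _ hK t x y hE ht f hf
    exact phi_gen hD hD' h.kills hchi hs K hK t x y hE ht f hf
  · intro r i
    by_cases hR : ∃ q : Fin n → WPt (pullA W p hp) k, Rel w0 r q
    · obtain ⟨q, hq⟩ := hR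
      rw [phi_eq hs hq, phi_eq hs (rel_neg hq i)]
      exact h.odd q i
    · rw [phi_zero hR, phi_zero, neg_zero]
      rintro ⟨q, hq⟩
      apply hR
      have h1 := rel_neg hq i
      rw [update_self, update_idem, neg_neg', update_eq_self] at h1
      exact ⟨_, h1⟩
  · intro i j hij r
    by_cases hR : ∃ q : Fin n → WPt (pullA W p hp) k, Rel w0 r q
    · obtain ⟨q, hq⟩ := hR
      rw [phi_eq hs hq, phi_eq hs (rel_swap hq (Equiv.swap i j))]
      exact h.alt i j hij q
    · rw [phi_zero hR, phi_zero, neg_zero]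
      rintro ⟨q, hq⟩
      apply hR
      have h1 := rel_swap hq (Equiv.swap i j)
      have h2 : (fun l => r (Equiv.swap i j (Equiv.swap i j l))) = r := by
        funext l
        rw [Equiv.swap_apply_self]
      rw [h2] at h1
      exact ⟨_, h1⟩
  · intro r i a ha hsing
    by_cases hR : ∃ q : Fin n → WPt (pullA W p hp) k, Rel w0 r q
    · obtain ⟨q, hq⟩ := hR
      rw [phi_eq hs hq]
      obtain ⟨b, h1, h2, h3, h4⟩ := hq
      have e1 : (WPt.mk a : WPt W k) = WPt.mk (downA (b i)) := by
        rw [← ha, h4]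
      obtain ⟨l, c, hl, hc, e2, e3⟩ := mk_eq_iff.mp e1
      refine CX.Pool.Agent.Helper83.VN.odd_sing h (i := i) (h3 i) ?_
      have e4 : asv p (b i).u = fun s => l * a.u s := funext fun s => e2 s
      change 4 * MvPolynomial.aeval (b i).u (MvPolynomial.bind₁ (asf p k) W.A) ^ 3 +
        27 * MvPolynomial.aeval (b i).u (MvPolynomial.bind₁ (asf p k) W.B) ^ 2 = 0
      rw [aeval_asf, aeval_asf, e4, aeval_smul W.hA, aeval_smul W.hB]
      linear_combination l ^ (12 * W.N) * hsing
    · exact phi_zero hR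
  · intro r i a ha hinf
    apply phi_zero
    rintro ⟨q, hq⟩
    have f1 := rel_ne hq (i := i) ha
    rw [hD.e1] at hinf
    change a.u 0 * 0 - a.u 1 * 1 = 0 at hinf
    apply f1
    linear_combination -hinf
  · intro w x y hE hw
    have hE' : ∀ i, D'.pt (w i) (x i) (y i) = WPt.mk (affC (D'.base (w i)) (x i) (y i)
      (cor_base_ne D' (w i)) (cor_base_eqn D' (hE i))) := fun i => pt_mk D' (hE i)
    apply phi_eq hs
    refine ⟨fun i => affC (D'.base (w i)) (x i) (y i) (cor_base_ne D' (w i))
      (cor_base_eqn D' (hE i)), fun i => ?_, ?_, hE', fun i => down_pt hD hD' (hE i)⟩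
    · change D'.base (w i) 1 = 1
      rw [hD'.base]
      rfl
    · rw [← hw]
      refine Finset.sum_congr rfl fun i _ => ?_
      change D'.base (w i) 0 = w i
      rw [hD'.base]
      rfl

end CX.CHA
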