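import Mathlib
import Pool.Agent.Helper98.CHA.Mv2
import Pool.Agent.Helper98.CHA.Gnr
import Pool.Agent.Helper98.CHA.Std
import Pool.Agent.Helper98.CHA.Phi2
import Pool.Agent.Helper40.CX.H83KV.App
import Pool.Agent.Helper40.CX.H83VN.Pnt
import Pool.Agent.Helper40.CX.Good2

namespace CX

/-!
# Project CHI: the vanishing theorem for a character of an additive base change

`chi_zero_add`: let `W` be a Weierstrass equation over the line with coordinate `u`, `j` not constant,
and let `pullA W p` be its base change by `u = w ^ p - w` in characteristic `p`. An odd alternating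
function on the `n`-th power of the surface of `pullA W p`, orthogonal to all principal divisors on
curves, which is multiplied by `χ ≠ 1` if the automorphism `w ↦ w + 1` is applied to one of the
arguments, is zero if `n ≥ W.N + 1`. The points over `w = ∞` are fixed by the automorphism.
-/

set_option linter.unusedSectionVars false

namespace Pool.Agent.Helper83.CHA

open VC VF Function CX.CHA
open Pool.Agent.Helper83.VN Pool.Agent.Helper51.EW Pool.Agent.Helper51.VN

universe u

section surj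

variable {k : Type u} [Field k] [IsAlgClosed k] {p : ℕ}

open Polynomial in
lemma exists_lin {p : ℕ} (hp : 1 < p) (b c : k) : ∃ y : k, y ^ p - y * b = c := by
  have hd : (X ^ p - (C b * X + C c) : k[X]).degree ≠ 0 := by
    have h1 : (C b * X + C c : k[X]).degree < (X ^ p : k[X]).degree := by
      rw [degree_X_pow]
      refine lt_of_le_of_lt degree_linear_le ?_
      exact_mod_cast hp
    rw [degree_sub_eq_left_of_degree_lt h1, degree_X_pow]
    intro h0
    have : p = 0 := by exact_mod_cast h0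
    omega
  obtain ⟨y, hy⟩ := IsAlgClosed.exists_root _ hd
  refine ⟨y, ?_⟩
  rw [IsRoot.def] at hy
  simp only [eval_sub, eval_add, eval_mul, eval_pow, eval_X, eval_C] at hy
  linear_combination hy

lemma asv_surj [hpp : Fact p.Prime] (u : Fin 2 → k) : ∃ v : Fin 2 → k, asv p v = u := by
  obtain ⟨z, hz⟩ := IsAlgClosed.exists_pow_nat_eq (u 1) hpp.out.pos
  obtain ⟨y, hy⟩ := exists_lin hpp.out.one_lt (z ^ (p - 1)) (u 0)
  refine ⟨![y, z], ?_⟩
  funext i
  fin_cases i
  · exact hy
  · exact hz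

lemma bind_ne [Fact p.Prime] {F : MvPolynomial (Fin 2) k} (hF : F ≠ 0) :
    MvPolynomial.bind₁ (asf p k) F ≠ 0 := by
  intro h0
  apply hF
  have : Infinite k := IsAlgClosed.instInfinite
  apply MvPolynomial.funext
  intro u
  obtain ⟨v, hv⟩ := asv_surj (p := p) u
  have h1 := congrArg (MvPolynomial.aeval v) h0
  rw [aeval_asf, hv, map_zero] at h1
  rw [map_zero, ← MvPolynomial.coe_aeval_eq_eval]
  exact h1

end surj

variable {k : Type u} [Field k] [IsAlgClosed k] [Good k] {W : Wei k} {n : ℕ}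

/-- The parameter of a line. -/
private noncomputable def mv3_l (T S : Fin n → k) (i : Fin n) : Polynomial k :=
  Polynomial.C (T i) + Polynomial.X * Polynomial.C (S i - T i)

private lemma mv3_l_eval (T S : Fin n → k) (i : Fin n) (x : k) :
    (mv3_l T S i).eval x = T i + x * (S i - T i) := by
  unfold mv3_l
  simp

/-- The points of a line which are not general. -/
private lemma mv3_fin (D : Cor W) (T : Fin n → k) {S : Fin n → k} (hS : Gn D S) :
    {x : k | ¬ Gn D (fun i => T i + x * (S i - T i))}.Finite := by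
  classical
  have hl1 : ∀ i, (mv3_l T S i).eval 1 = S i := by
    intro i
    rw [mv3_l_eval]
    ring
  have hae : ∀ (p : Polynomial k) (x : k), Polynomial.aeval x p = p.eval x := fun p x => by
    rw [Polynomial.coe_aeval_eq_eval]
  obtain ⟨pa, hpa⟩ : ∃ pa : Fin n → Polynomial k, pa = fun i => D.al.comp (mv3_l T S i) :=
    ⟨_, rfl⟩
  obtain ⟨pb, hpb⟩ : ∃ pb : Fin n → Polynomial k, pb = fun i => D.be.comp (mv3_l T S i) :=
    ⟨_, rfl⟩
  obtain ⟨pd, hpd⟩ : ∃ pd : Fin n → Polynomial k, pd = fun i => pb i ^ 2 - pa i ^ 3 := ⟨_, rfl⟩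
  have ha : ∀ i x, (pa i).eval x = D.a (T i + x * (S i - T i)) := by
    intro i x
    rw [hpa, Polynomial.eval_comp, mv3_l_eval]
    unfold Cor.a
    rw [hae]
  have hb : ∀ i x, (pb i).eval x = D.b (T i + x * (S i - T i)) := by
    intro i x
    rw [hpb, Polynomial.eval_comp, mv3_l_eval]
    unfold Cor.b
    rw [hae]
  have hd : ∀ i x, (pd i).eval x = D.d (T i + x * (S i - T i)) := by
    intro i x
    rw [hpd]
    simp only [Polynomial.eval_sub, Polynomial.eval_pow, ha, hb]
    rfl
  obtain ⟨P, hP⟩ : ∃ P : Polynomial k, P = (∏ i, (pa i * pb i * pd i)) *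
      ∏ i, ∏ j, (if i = j then 1 else (pb i ^ 2 * pd j - pb j ^ 2 * pd i)) := ⟨_, rfl⟩
  have hiff : ∀ x, P.eval x ≠ 0 ↔ Gn D (fun i => T i + x * (S i - T i)) := by
    intro x
    have h1 : P.eval x = (∏ i, ((pa i).eval x * (pb i).eval x * (pd i).eval x)) *
        ∏ i, ∏ j, (if i = j then 1 else
          ((pb i).eval x ^ 2 * (pd j).eval x - (pb j).eval x ^ 2 * (pd i).eval x)) := by
      rw [hP, Polynomial.eval_mul, Polynomial.eval_prod, Polynomial.eval_prod]
      congr 1
      · apply Finset.prod_congr rfl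
        intro i _
        simp only [Polynomial.eval_mul]
      · apply Finset.prod_congr rfl
        intro i _
        rw [Polynomial.eval_prod]
        apply Finset.prod_congr rfl
        intro j _
        split_ifs
        · rw [Polynomial.eval_one]
        · simp only [Polynomial.eval_sub, Polynomial.eval_mul, Polynomial.eval_pow]
    rw [h1, mul_ne_zero_iff, Finset.prod_ne_zero_iff, Finset.prod_ne_zero_iff]
    simp only [ha, hb, hd]
    constructor
    · rintro ⟨h2, h3⟩
      refine ⟨fun i => ?_, fun i => ?_, fun i => ?_, fun i j hij => ?_⟩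
      · exact left_ne_zero_of_mul (left_ne_zero_of_mul (h2 i (Finset.mem_univ i)))
      · exact right_ne_zero_of_mul (left_ne_zero_of_mul (h2 i (Finset.mem_univ i)))
      · exact right_ne_zero_of_mul (h2 i (Finset.mem_univ i))
      · have h4 := h3 i (Finset.mem_univ i)
        rw [Finset.prod_ne_zero_iff] at h4
        have h5 := h4 j (Finset.mem_univ j)
        rw [if_neg hij] at h5
        exact sub_ne_zero.mp h5
    · intro h2
      refine ⟨fun i _ => mul_ne_zero (mul_ne_zero (h2.ha i) (h2.hb i)) (h2.hd i), fun i _ => ?_⟩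
      rw [Finset.prod_ne_zero_iff]
      intro j _
      split_ifs with hij
      · exact one_ne_zero
      · exact sub_ne_zero.mpr (h2.hj i j hij)
  have hP0 : P ≠ 0 := by
    rintro h0
    have h1 : P.eval 1 ≠ 0 := by
      rw [hiff]
      have : (fun i => T i + 1 * (S i - T i)) = S := by
        funext i
        ring
      rw [this]
      exact hS
    apply h1
    rw [h0, Polynomial.eval_zero]
  apply (P.roots.toFinset.finite_toSet).subset
  intro x hx
  rw [Set.mem_ofPred_eq, ← hiff, not_not] at hx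
  rw [Finset.mem_coe, Multiset.mem_toFinset, Polynomial.mem_roots hP0]
  exact hx

/-- The vanishing theorem, in terms of adapted coordinates. -/
theorem chi_zero_aux {p : ℕ} [hpp : Fact p.Prime] [CharP k p] {hp : p ≠ 0}
    {D₀ : Cor W} (hD₀ : IsStd D₀) {D : Cor (pullA W p hp)} (hD : IsStd D) (h1 : 1 ≤ W.N)
    (hn : W.N + 1 ≤ n)
    (hj : ∀ c c' : k, (c ≠ 0 ∨ c' ≠ 0) →
      Polynomial.C c * D₀.be ^ 2 ≠ Polynomial.C c' * D₀.al ^ 3)
    {Ψ : ((pullA W p hp).surface.pow n).Pt → ℂ} (h : Helper51.EW.Odd (pullA W p hp) n Ψ) {χ : ℂ}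
    (hχ : χ ≠ 1)
    (hs : ∀ (q : ((pullA W p hp).surface.pow n).Pt) (i : Fin n),
      Ψ (update q i (rotA (q i))) = χ * Ψ q)
    (r : ((pullA W p hp).surface.pow n).Pt) : Ψ r = 0 := by
  classical
  by_contra hne
  -- the fixed fibres
  have hfix : ∀ (q : ((pullA W p hp).surface.pow n).Pt) (i : Fin n),
      rotA (q i) = q i → Ψ q = 0 := by
    intro q i hi
    have h2 := hs q i
    rw [hi, update_eq_self] at h2
    have h3 : (χ - 1) * Ψ q = 0 := by linear_combination -h2
    exact (mul_eq_zero.mp h3).resolve_left (sub_ne_zero.mpr hχ)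
  have hpr : ∀ i, ∃ t x y : k, y ≠ 0 ∧ OnE (D.a t) (D.b t) x y ∧ r i = D.pt t x y := by
    intro i
    rcases pt_or D (r i) with h2 | ⟨c, h2, h3⟩ | ⟨c, h2, h3⟩ | ⟨t, x, y, -, h3, h4, h5⟩
    · exact absurd (Helper51.EW.Odd.zero_of_neg h h2) hne
    · exact absurd (VN.odd_sing h h2 h3) hne
    · have h4 : c.u 1 = 0 := by
        rw [hD.e1] at h3
        change c.u 0 * 0 - c.u 1 * 1 = 0 at h3
        linear_combination -h3
      exact absurd (hfix r i (by rw [h2]; exact rot_fix h4)) hne
    · exact ⟨t, x, y, h3, h4, h5⟩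
  choose T x y hy0 hE hpt using hpr
  -- general points
  have hgen : ∀ w x y : Fin n → k, Gn D w → (∀ i, OnE (D.a (w i)) (D.b (w i)) (x i) (y i)) →
      Ψ (fun i => D.pt (w i) (x i) (y i)) = 0 := by
    intro w x y hw hE
    obtain ⟨Φ, hΦ, hΦΨ⟩ := exists_phi hD₀ hD h hχ hs (∑ i, w i)
    rw [← hΦΨ w x y hE rfl]
    have hw' : Gn D₀ (fun i => w i ^ p - w i) :=
      { ha := fun i => by rw [← std_a hD₀ hD]; exact hw.ha i
        hb := fun i => by rw [← std_b hD₀ hD]; exact hw.hb i
        hd := fun i => by rw [← std_d hD₀ hD]; exact hw.hd i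
        hj := fun i j hij => by
          rw [← std_b hD₀ hD, ← std_b hD₀ hD, ← std_d hD₀ hD, ← std_d hD₀ hD]
          exact hw.hj i j hij }
    refine ps_zero h1 hn hΦ ?_ hw' x y (fun i => ?_)
    · unfold Prc
      have e2 : (∑ i, w i) ^ p = ∑ i, w i ^ p := sum_pow_char p Finset.univ w
      rw [Finset.sum_sub_distrib, Algebra.algebraMap_self, RingHom.id_apply, e2]
    · rw [← std_a hD₀ hD, ← std_b hD₀ hD]
      exact hE i
  obtain ⟨S₀, hS₀⟩ := exists_gn D₀ hj n
  have hroot : ∀ i, ∃ z : k, z ^ p - z = S₀ i := by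
    intro i
    obtain ⟨z, hz⟩ := exists_lin hpp.out.one_lt 1 (S₀ i)
    exact ⟨z, by rw [mul_one] at hz; exact hz⟩
  choose S hSS using hroot
  have hS : Gn D S :=
    { ha := fun i => by rw [std_a hD₀ hD, hSS]; exact hS₀.ha i
      hb := fun i => by rw [std_b hD₀ hD, hSS]; exact hS₀.hb i
      hd := fun i => by rw [std_d hD₀ hD, hSS]; exact hS₀.hd i
      hj := fun i j hij => by
        rw [std_b hD₀ hD, std_b hD₀ hD, std_d hD₀ hD, std_d hD₀ hD, hSS, hSS]
        exact hS₀.hj i j hij }
  have hfin := mv3_fin D T hS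
  -- the function field
  obtain ⟨K, _, _, τ, Y, hK, hτ, hY⟩ := exists_poly_roots (k := k) (m := 2) two_ne_zero
    (fun i => Polynomial.C (x i ^ 3) - Polynomial.C (3 * x i) * D.al.comp (mv3_l T S i) -
      2 * D.be.comp (mv3_l T S i))
  obtain ⟨t, ht⟩ : ∃ t : Fin n → K, t = fun i =>
    algebraMap k K (T i) + τ * algebraMap k K (S i - T i) := ⟨_, rfl⟩
  have hlt : ∀ i, Polynomial.aeval τ (mv3_l T S i) = t i := by
    intro i
    rw [ht]
    unfold mv3_l
    simp
  have hYE : ∀ i, OnE (D.a (t i)) (D.b (t i)) (algebraMap k K (x i)) (Y i) := by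
    intro i
    unfold OnE
    rw [hY i]
    simp only [map_sub, map_mul, Polynomial.aeval_C, Polynomial.aeval_comp, hlt, map_pow,
      map_ofNat]
    unfold Cor.a Cor.b
    ring
  obtain ⟨w₀, hw₀⟩ := exists_place hK hτ
  have hτ0 : IsRes w₀ τ 0 := isRes_zero_iff.mpr hw₀
  have htv : ∀ (w : Place k K) (c : k), IsRes w τ c → ∀ i,
      IsRes w (t i) (T i + c * (S i - T i)) := by
    intro w c hc i
    rw [ht]
    exact (isRes_const _).add (hc.mul (isRes_const _))
  have hYv : ∀ (w : Place k K) (c : k), IsRes w τ c → ∀ i, ∃ e, IsRes w (Y i) e ∧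
      OnE (D.a (T i + c * (S i - T i))) (D.b (T i + c * (S i - T i))) (x i) e := by
    intro w c hc i
    have h2 : IsRes w (Y i ^ 2) (x i ^ 3 - 3 * D.a (T i + c * (S i - T i)) * x i -
        2 * D.b (T i + c * (S i - T i))) := by
      rw [hYE i]
      have e3 : IsRes w (3 : K) (3 : k) := by
        have := isRes_const (v := w) (3 : k)
        rwa [map_ofNat] at this
      have e2 : IsRes w (2 : K) (2 : k) := by
        have := isRes_const (v := w) (2 : k)
        rwa [map_ofNat] at this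
      exact (((isRes_const _).pow 3).sub ((e3.mul (isRes_a D (htv w c hc i))).mul
        (isRes_const _))).sub (e2.mul (isRes_b D (htv w c hc i)))
    obtain ⟨e, he, he'⟩ := exists_res_of_pow hK two_ne_zero h2
    exact ⟨e, he, he'⟩
  -- the signs
  have hsg : ∀ i, ∃ ε : k, ε ^ 2 = 1 ∧ IsRes w₀ (algebraMap k K ε * Y i) (y i) := by
    intro i
    obtain ⟨e, he, he'⟩ := hYv w₀ 0 hτ0 i
    rw [zero_mul, add_zero] at he'
    have h2 : e ^ 2 = y i ^ 2 := by
      have := hE i
      unfold OnE at this he'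
      rw [he', this]
    rcases sq_eq_sq_iff_eq_or_eq_neg.mp h2 with h3 | h3
    · refine ⟨1, one_pow 2, ?_⟩
      rw [map_one, one_mul, ← h3]
      exact he
    · refine ⟨-1, by ring, ?_⟩
      rw [map_neg, map_one, neg_one_mul]
      have := he.neg
      rwa [h3, neg_neg] at this
  choose ε hε hεY using hsg
  obtain ⟨c, hc⟩ : ∃ c : ((pullA W p hp).surface.pow n).Mor K, c = fun i =>
      D.pt (t i) (algebraMap k K (x i)) (algebraMap k K (ε i) * Y i) := ⟨_, rfl⟩
  have hcE : ∀ i, OnE (D.a (t i)) (D.b (t i)) (algebraMap k K (x i))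
      (algebraMap k K (ε i) * Y i) := by
    intro i
    have := hYE i
    unfold OnE at this ⊢
    rw [mul_pow, ← map_pow, hε, map_one, one_mul, this]
  have hval : ∀ (w : Place k K) (c₀ : k), IsRes w τ c₀ → ∀ e : Fin n → k,
      (∀ i, IsRes w (algebraMap k K (ε i) * Y i) (e i)) →
      ((pullA W p hp).surface.pow n).eval hK c w = fun i => D.pt (T i + c₀ * (S i - T i)) (x i) (e i) := by
    intro w c₀ hc₀ e he
    funext i
    rw [hc]
    exact eval_pt D hK w (hcE i) (htv w c₀ hc₀ i) (isRes_const _) (he i)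
  have key := Helper83.KV.app h.kills hK c (fin_pl hK hτ hfin) (by
    intro w hw
    rw [Set.mem_ofPred_eq, not_or, not_not, not_exists] at hw
    obtain ⟨hw1, hw2⟩ := hw
    obtain ⟨c₀, hc₀⟩ := exists_res hK hw1
    have hG : Gn D (fun i => T i + c₀ * (S i - T i)) := by
      by_contra h0
      exact hw2 c₀ ⟨h0, hc₀⟩
    choose e he he' using hYv w c₀ hc₀
    rw [hval w c₀ hc₀ (fun i => ε i * e i) (fun i => (isRes_const _).mul (he i))]
    refine hgen _ x (fun i => ε i * e i) hG (fun i => ?_)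
    have := he' i
    unfold OnE at this ⊢
    rw [mul_pow, hε, one_mul, this]) w₀
  rw [hval w₀ 0 hτ0 y hεY] at key
  apply hne
  rw [← key]
  congr 1
  funext i
  rw [hpt i, zero_mul, add_zero]

theorem chi_zero_add {p : ℕ} [hpp : Fact p.Prime] [CharP k p] {hp : p ≠ 0}
    (h1 : 1 ≤ W.N) (hn : W.N + 1 ≤ n)
    (hj : ∀ c d : k, (c ≠ 0 ∨ d ≠ 0) → MvPolynomial.C c * W.A ^ 3 ≠ MvPolynomial.C d * W.B ^ 2)
    {Ψ : ((pullA W p hp).surface.pow n).Pt → ℂ} (h : Helper51.EW.Odd (pullA W p hp) n Ψ) {χ : ℂ}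
    (hχ : χ ≠ 1)
    (hs : ∀ (q : ((pullA W p hp).surface.pow n).Pt) (i : Fin n),
      Ψ (update q i (rotA (q i))) = χ * Ψ q)
    (r : ((pullA W p hp).surface.pow n).Pt) : Ψ r = 0 := by
  have hΔ : 4 * W.A ^ 3 + 27 * W.B ^ 2 ≠ 0 := by
    intro h0
    apply hj 4 (-27) (Or.inl (by
      have : (4 : k) = 2 ^ 2 := by norm_num
      rw [this]; exact pow_ne_zero 2 Good.two))
    have e1 : (MvPolynomial.C 4 : MvPolynomial (Fin 2) k) = 4 := map_ofNat _ 4
    have e2 : (MvPolynomial.C (-27) : MvPolynomial (Fin 2) k) = -27 := by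
      rw [map_neg]; congr 1
    rw [e1, e2]
    linear_combination h0
  have hΔ' : 4 * (pullA W p hp).A ^ 3 + 27 * (pullA W p hp).B ^ 2 ≠ 0 := by
    have h2 := bind_ne (p := p) hΔ
    rw [map_add, map_mul, map_mul, map_pow, map_pow, map_ofNat, map_ofNat] at h2
    exact h2
  obtain ⟨D₀, hD₀⟩ := exists_std W hΔ
  obtain ⟨D, hD⟩ := exists_std (pullA W p hp) hΔ'
  refine chi_zero_aux hD₀ hD h1 hn ?_ h hχ hs r
  intro c c' hc he
  obtain ⟨a, b, hab, h2⟩ := cor_j D₀ hc he
  exact hj a b hab h2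

end Pool.Agent.Helper83.CHA

end CX
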