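import Mathlib
import Pool.Agent.Helper98.CHA.Mv3
import Pool.Agent.Helper98.CHI.Cor

/-!
# CHA: Voisin's property for the characters of the additive base change of a Weierstrass surface
-/

set_option autoImplicit false
set_option linter.unusedSectionVars false

namespace CX.CHA

open CX.VC CX.VF Function
open CX.CHI (VoisinChi voisinChi_of_odd)
open CX.Pool.Agent.Helper51.EW (Wei)

universe u

variable {k : Type u} [Field k] [IsAlgClosed k] [Good k]

/-- Voisin's property for the character `χ ≠ 1` of the translation `w ↦ w + 1` of the base change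
`u = w ^ p - w` of a Weierstrass surface with non-constant `j` in characteristic `p`, and
`n > W.N`. -/
theorem voisinChi_wei_add {W : Wei k} {p n : ℕ} [Fact p.Prime] [CharP k p] (hp : p ≠ 0)
    (h1 : 1 ≤ W.N) (hn : W.N + 1 ≤ n)
    (hj : ∀ c d : k, (c ≠ 0 ∨ d ≠ 0) →
      MvPolynomial.C c * W.A ^ 3 ≠ MvPolynomial.C d * W.B ^ 2) {χ : ℂ} (hχ : χ ≠ 1) :
    VoisinChi (pullA W p hp).surface rotA χ n :=
  voisinChi_of_odd hχ (fun q => rotA_neg q) fun _ h hs r =>
    CX.Pool.Agent.Helper83.CHA.chi_zero_add h1 hn hj h hχ hs r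

end CX.CHA
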